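import Pool.Agent.W_MP_002644_nt.Count

set_option autoImplicit false

namespace Pool.Agent.W_MP_002644_nt

open Finset Filter Topology

theorem exists_root (k M : ℕ) (hM : 0 < M) (h : M ^ 7 ≤ k) :
    ∃ m, M ≤ m ∧ m ^ 7 ≤ k ∧ k < (m + 1) ^ 7 := by
  have hex : ∃ n, k < (n + 1) ^ 7 := ⟨k, by
    calc k < k + 1 := Nat.lt_succ_self k
      _ ≤ (k + 1) ^ 7 := Nat.le_self_pow (by norm_num) _⟩
  have hspec := Nat.find_spec hex
  have hMle : M ≤ Nat.find hex := by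
    by_contra hc
    push Not at hc
    have : (Nat.find hex + 1) ^ 7 ≤ M ^ 7 := Nat.pow_le_pow_left hc 7
    omega
  refine ⟨Nat.find hex, hMle, ?_, hspec⟩
  obtain ⟨j, hj⟩ : ∃ j, Nat.find hex = j + 1 := ⟨Nat.find hex - 1, by omega⟩
  have := Nat.find_min hex (m := j) (by omega)
  rw [hj]
  omega

theorem Dset_small (δ : ℝ) (hδ : 0 < δ) :
    ∃ K : ℕ, ∀ k ≥ K, ((Dset k).card : ℝ) * k ≤ δ * 10 ^ k := by
  -- eventually in m
  have h1 : Tendsto (fun n : ℕ => (n : ℝ) ^ 15 * (299 / 300 : ℝ) ^ n) atTop (𝓝 0) :=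
    tendsto_pow_const_mul_const_pow_of_abs_lt_one 15 (by rw [abs_of_pos] <;> norm_num)
  have h2 : ∀ᶠ n : ℕ in atTop, (n : ℝ) ^ 15 * (299 / 300 : ℝ) ^ n < 1 / 60 :=
    h1.eventually_lt_const (by norm_num)
  obtain ⟨M1, hM1⟩ := eventually_atTop.mp h2
  set M : ℕ := max (max 337 M1) (max ⌈57600 * 4 / δ ^ 2⌉₊ ⌈2 / δ⌉₊) with hM
  refine ⟨M ^ 7, ?_⟩
  intro k hk
  have hMpos : 0 < M := lt_of_lt_of_le (by norm_num : 0 < 337)
    ((le_max_left _ _).trans (le_max_left _ _))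
  obtain ⟨m, hmM, hmk, hkm⟩ := exists_root k M hMpos hk
  have e1 : 337 ≤ m := ((le_max_left _ _).trans (le_max_left _ _)).trans hmM
  have e2 : M1 ≤ m := ((le_max_right _ _).trans (le_max_left _ _)).trans hmM
  have e3 : 57600 * 4 / δ ^ 2 ≤ m := by
    have : ⌈57600 * 4 / δ ^ 2⌉₊ ≤ m := ((le_max_left _ _).trans (le_max_right _ _)).trans hmM
    exact (Nat.le_ceil _).trans (by exact_mod_cast this)
  have e4 : 2 / δ ≤ m := by
    have : ⌈2 / δ⌉₊ ≤ m := ((le_max_right _ _).trans (le_max_right _ _)).trans hmM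
    exact (Nat.le_ceil _).trans (by exact_mod_cast this)
  have hmR : (337 : ℝ) ≤ m := by exact_mod_cast e1
  have hm0 : (0 : ℝ) < m := by linarith
  have hρ : 60 * (m : ℝ) ^ 15 * (299 / 300 : ℝ) ^ m ≤ 1 := by
    have := hM1 m e2
    nlinarith
  have hmain := Dset_le k m e1 hmk hρ
  have hkR : (0 : ℝ) ≤ k := by positivity
  have hkm' : (k : ℝ) ≤ ((m : ℝ) + 1) ^ 7 := by exact_mod_cast hkm.le
  have hmk' : (m : ℝ) ^ 7 ≤ k := by exact_mod_cast hmk
  -- first term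
  have t1 : ((S k).card : ℝ) * (3 / (m : ℝ) ^ 4) * k ≤ δ / 2 * 10 ^ k := by
    have hsq : (((S k).card : ℝ) * (3 / (m : ℝ) ^ 4) * k) ^ 2 ≤ (δ / 2 * 10 ^ k) ^ 2 := by
      have s1 := card_S_sq k
      have s2 : ((S k).card : ℝ) ^ 2 * k ≤ 50 * (10 ^ k) ^ 2 := by
        have : (0 : ℝ) ≤ ((S k).card : ℝ) ^ 2 := by positivity
        nlinarith
      have s3 : ((m : ℝ) + 1) ^ 7 ≤ 128 * (m : ℝ) ^ 7 := by
        calc ((m : ℝ) + 1) ^ 7 ≤ (2 * (m : ℝ)) ^ 7 := by gcongr; linarith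
          _ = 128 * (m : ℝ) ^ 7 := by ring
      have s4 : (k : ℝ) / (m : ℝ) ^ 8 ≤ 128 / m := by
        rw [div_le_div_iff₀ (by positivity) hm0]
        calc (k : ℝ) * m ≤ (128 * (m : ℝ) ^ 7) * m := by
              gcongr
              exact hkm'.trans s3
          _ = 128 * (m : ℝ) ^ 8 := by ring
      calc (((S k).card : ℝ) * (3 / (m : ℝ) ^ 4) * k) ^ 2
          = 9 * (((S k).card : ℝ) ^ 2 * (k : ℝ)) * ((k : ℝ) / (m : ℝ) ^ 8) := by
            field_simp; ring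
        _ ≤ 9 * (50 * ((10 : ℝ) ^ k) ^ 2) * (128 / (m : ℝ)) := by gcongr
        _ = ((10 : ℝ) ^ k) ^ 2 * (57600 / (m : ℝ)) := by ring
        _ ≤ ((10 : ℝ) ^ k) ^ 2 * (δ ^ 2 / 4) := by
            apply mul_le_mul_of_nonneg_left _ (by positivity)
            rw [div_le_iff₀ hm0]
            rw [div_le_iff₀ (by positivity)] at e3
            linarith
        _ = (δ / 2 * 10 ^ k) ^ 2 := by ring
    exact le_of_sq_le_sq hsq (by positivity)
  -- second term
  have t2 : (Real.exp (21 * (m : ℝ) ^ 4) + 1) * k ≤ δ / 2 * 10 ^ k := by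
    have u1 : Real.exp (2 * k) ≤ (10 : ℝ) ^ k := by
      have h3 : Real.exp (2 * k) = (Real.exp 1 ^ 2) ^ k := by
        rw [← Real.exp_nat_mul, ← Real.exp_nat_mul]; push_cast; ring_nf
      rw [h3]
      apply pow_le_pow_left₀ (by positivity)
      have := Real.exp_one_lt_d9
      have h4 := Real.exp_pos 1
      nlinarith
    have u2 : (k : ℝ) ≤ Real.exp k := by
      have := Real.add_one_le_exp (k : ℝ)
      linarith
    have u3 : Real.exp (21 * (m : ℝ) ^ 4) + 1 ≤ Real.exp (21 * (m : ℝ) ^ 4 + 1) := by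
      rw [Real.exp_add]
      have h3 : 1 ≤ Real.exp (21 * (m : ℝ) ^ 4) := Real.one_le_exp (by positivity)
      have h4 := Real.add_one_le_exp (1 : ℝ)
      nlinarith
    have u4 : 2 / δ ≤ Real.exp m := by
      have := Real.add_one_le_exp (m : ℝ)
      linarith
    have u5 : 21 * (m : ℝ) ^ 4 + 1 + m ≤ k := by
      refine le_trans ?_ hmk'
      have v1 : (1 : ℝ) ≤ (m : ℝ) ^ 4 := one_le_pow₀ (by linarith)
      have v2 : (m : ℝ) ≤ (m : ℝ) ^ 4 := by
        calc (m : ℝ) = (m : ℝ) ^ 1 := (pow_one _).symm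
          _ ≤ (m : ℝ) ^ 4 := pow_le_pow_right₀ (by linarith) (by norm_num)
      calc 21 * (m : ℝ) ^ 4 + 1 + m ≤ 23 * (m : ℝ) ^ 4 := by linarith
        _ ≤ (m : ℝ) ^ 3 * (m : ℝ) ^ 4 := by
            apply mul_le_mul_of_nonneg_right _ (by positivity)
            calc (23 : ℝ) ≤ m := by linarith
              _ = (m : ℝ) ^ 1 := (pow_one _).symm
              _ ≤ (m : ℝ) ^ 3 := pow_le_pow_right₀ (by linarith) (by norm_num)
        _ = (m : ℝ) ^ 7 := by ring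
    have u6 : (2 / δ) * ((Real.exp (21 * (m : ℝ) ^ 4) + 1) * k) ≤ 10 ^ k := by
      calc (2 / δ) * ((Real.exp (21 * (m : ℝ) ^ 4) + 1) * k)
          ≤ Real.exp m * (Real.exp (21 * (m : ℝ) ^ 4 + 1) * Real.exp k) := by gcongr
        _ = Real.exp ((21 * (m : ℝ) ^ 4 + 1 + m) + k) := by
            rw [← Real.exp_add, ← Real.exp_add]; ring_nf
        _ ≤ Real.exp (2 * k) := by
            apply Real.exp_le_exp.mpr; linarith
        _ ≤ 10 ^ k := u1
    have u7 : δ / 2 * ((2 / δ) * ((Real.exp (21 * (m : ℝ) ^ 4) + 1) * k))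
        = (Real.exp (21 * (m : ℝ) ^ 4) + 1) * k := by
      field_simp
    rw [← u7]
    gcongr
  calc ((Dset k).card : ℝ) * k
      ≤ (((S k).card : ℝ) * (3 / (m : ℝ) ^ 4) + Real.exp (21 * (m : ℝ) ^ 4) + 1) * k := by gcongr
    _ = ((S k).card : ℝ) * (3 / (m : ℝ) ^ 4) * k + (Real.exp (21 * (m : ℝ) ^ 4) + 1) * k := by
        ring
    _ ≤ δ * 10 ^ k := by linarith

/-- Chebyshev-type lower bound for the number of primes up to `10^j`. -/
theorem primeCounting_ge (j : ℕ) (hj : 2 ≤ j) :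
    (10 : ℝ) ^ j / (6 * (j + 1)) ≤ (Nat.primeCounting (10 ^ j) : ℝ) := by
  have h1 := Chebyshev.pi_ge (10 ^ j)
  refine le_trans ?_ h1
  push_cast
  set N : ℝ := (10 : ℝ) ^ j with hN
  have hN100 : (100 : ℝ) ≤ N := by
    rw [hN]
    calc (100 : ℝ) = 10 ^ 2 := by norm_num
      _ ≤ 10 ^ j := pow_le_pow_right₀ (by norm_num) hj
  have hlogN : Real.log N = j * Real.log 10 := by rw [hN, Real.log_pow]
  have hj0 : (0 : ℝ) < j := by exact_mod_cast (by omega : 0 < j)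
  have hlog10 : 0 < Real.log 10 := Real.log_pos (by norm_num)
  have hlog10' : Real.log 10 ≤ 2.4 := by
    rw [Real.log_le_iff_le_exp (by norm_num)]
    have h3 : Real.exp 2.4 = (Real.exp 1) ^ (2 : ℕ) * Real.exp 0.4 := by
      rw [← Real.exp_nat_mul, ← Real.exp_add]; norm_num
    rw [h3]
    have h4 := Real.exp_one_gt_d9
    have h5 := Real.add_one_le_exp (0.4 : ℝ)
    have h6 : (7.38 : ℝ) ≤ Real.exp 1 ^ 2 := by nlinarith
    nlinarith [Real.exp_pos 0.4]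
  have hlogN1 : Real.log (N + 1) ≤ N / 4 := by
    have h3 : Real.log (N + 1) = 2 * Real.log (√(N + 1)) := by
      rw [Real.log_sqrt (by positivity)]; ring
    have h4 : Real.log (√(N + 1)) ≤ √(N + 1) - 1 :=
      Real.log_le_sub_one_of_pos (by positivity)
    have h5 : √(N + 1) ≤ N / 8 := by
      rw [Real.sqrt_le_left (by positivity)]
      nlinarith
    linarith
  have hlog2 : (0.69 : ℝ) ≤ Real.log 2 := by
    have := Real.log_two_gt_d9
    linarith
  rw [hlogN, div_le_div_iff₀ (by positivity) (by positivity)]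
  have h5 : 0.44 * N ≤ N * Real.log 2 - Real.log (N + 1) := by nlinarith
  calc N * (j * Real.log 10) ≤ N * (j * 2.4) := by gcongr
    _ ≤ (0.44 * N) * (6 * (j + 1)) := by nlinarith
    _ ≤ (N * Real.log 2 - Real.log (N + 1)) * (6 * (j + 1)) := by gcongr

theorem main : Tendsto (fun x : ℝ =>
    ({p : ℕ | Deletable p ∧ (p : ℝ) ≤ x}.ncard : ℝ) / ({p : ℕ | p.Prime ∧ (p : ℝ) ≤ x}.ncard : ℝ))
    atTop (𝓝 0) := by
  classical
  rw [Metric.tendsto_atTop]
  intro η hη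
  obtain ⟨K, hK⟩ := Dset_small (η / 61) (by positivity)
  refine ⟨10 ^ (K + 3), ?_⟩
  intro x hx
  have hx0 : (0 : ℝ) ≤ x := le_trans (by positivity) hx
  set N : ℕ := ⌊x⌋₊ with hN
  have hNge : 10 ^ (K + 3) ≤ N := by
    apply Nat.le_floor
    push_cast
    exact hx
  have hN0 : N ≠ 0 := by
    have : 0 < 10 ^ (K + 3) := by positivity
    omega
  set j : ℕ := Nat.log 10 N with hj
  have hj1 : 10 ^ j ≤ N := Nat.pow_log_le_self 10 hN0
  have hj2 : N < 10 ^ (j + 1) := Nat.lt_pow_succ_log_self (by norm_num) N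
  have hjK : K + 3 ≤ j := (Nat.le_log_iff_pow_le (by norm_num) hN0).mpr hNge
  -- numerator
  have hset : ∀ (q : ℕ → Prop), {p : ℕ | q p ∧ (p : ℝ) ≤ x} = {p : ℕ | q p ∧ p ≤ N} := by
    intro q
    ext p
    simp only [Set.mem_ofPred_eq]
    constructor
    · rintro ⟨h1, h2⟩; exact ⟨h1, Nat.le_floor h2⟩
    · rintro ⟨h1, h2⟩; exact ⟨h1, (Nat.le_floor_iff hx0).mp h2⟩
  rw [hset, hset]
  have hnum : (({p : ℕ | Deletable p ∧ p ≤ N}.ncard : ℕ) : ℝ) ≤ ((Dset (j + 1)).card : ℝ) := by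
    have : {p : ℕ | Deletable p ∧ p ≤ N} ⊆ ↑(Dset (j + 1)) := by
      intro p hp
      simp only [Set.mem_ofPred_eq] at hp
      unfold Dset
      simp only [Finset.coe_filter, Finset.mem_range, Set.mem_ofPred_eq]
      exact ⟨by omega, hp.1⟩
    have h2 := Set.ncard_le_ncard this (Finset.finite_toSet _)
    rw [Set.ncard_coe_finset] at h2
    exact_mod_cast h2
  have hden : (Nat.primeCounting (10 ^ j) : ℝ) ≤ (({p : ℕ | p.Prime ∧ p ≤ N}.ncard : ℕ) : ℝ) := by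
    have h1 : ({p : ℕ | p.Prime ∧ p ≤ N} : Set ℕ) = ↑(Nat.primesLE N) := by
      ext p
      simp only [Set.mem_ofPred_eq, Finset.mem_coe, Nat.mem_primesLE]
      tauto
    rw [h1, Set.ncard_coe_finset, Nat.primesLE_card_eq_primeCounting]
    exact_mod_cast Nat.monotone_primeCounting hj1
  have hD := hK (j + 1) (by omega)
  have hP := primeCounting_ge j (by omega)
  have hpow : (0 : ℝ) < (10 : ℝ) ^ j := by positivity
  have hj1' : (0 : ℝ) < (j : ℝ) + 1 := by positivity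
  have hdenpos : (0 : ℝ) < (({p : ℕ | p.Prime ∧ p ≤ N}.ncard : ℕ) : ℝ) :=
    lt_of_lt_of_le (lt_of_lt_of_le (by positivity) hP) hden
  rw [Real.dist_eq, sub_zero, abs_of_nonneg (by positivity), div_lt_iff₀ hdenpos]
  have hD' : ((Dset (j + 1)).card : ℝ) ≤ 10 * (η / 61) * (10 ^ j / (j + 1)) := by
    rw [mul_div_assoc', le_div_iff₀ hj1']
    push_cast at hD
    calc ((Dset (j + 1)).card : ℝ) * (j + 1) ≤ η / 61 * 10 ^ (j + 1) := hD
      _ = 10 * (η / 61) * 10 ^ j := by rw [pow_succ]; ring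
  calc (({p : ℕ | Deletable p ∧ p ≤ N}.ncard : ℕ) : ℝ) ≤ ((Dset (j + 1)).card : ℝ) := hnum
    _ ≤ 10 * (η / 61) * (10 ^ j / (j + 1)) := hD'
    _ = (60 * η / 61) * (10 ^ j / (6 * (j + 1))) := by field_simp; ring
    _ < η * (10 ^ j / (6 * (j + 1))) := by
        apply mul_lt_mul_of_pos_right _ (by positivity)
        linarith
    _ ≤ η * (Nat.primeCounting (10 ^ j) : ℝ) := by gcongr
    _ ≤ η * (({p : ℕ | p.Prime ∧ p ≤ N}.ncard : ℕ) : ℝ) := by gcongr

end Pool.Agent.W_MP_002644_nt
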