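import Pool.Agent.W_MP_002644_nt.Barrier

set_option autoImplicit false

namespace Pool.Agent.W_MP_002644_nt

open Finset

/-- Reindexing of sums over `n < 10 N`. -/
theorem sum_range_mul_ten {M : Type*} [AddCommMonoid M] (N : ℕ) (F : ℕ → M) :
    ∑ n ∈ range (N * 10), F n = ∑ m ∈ range N, ∑ b ∈ range 10, F (b + 10 * m) := by
  induction N with
  | zero => simp
  | succ N ih =>
    rw [Nat.succ_mul, Finset.sum_range_add, ih, Finset.sum_range_succ _ N]
    congr 1
    apply Finset.sum_congr rfl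
    intro b _
    congr 1
    ring

/-- Sum of `F` over `n < 10^k` with `fdig n = v`. -/
noncomputable def W {M : Type*} [AddCommMonoid M] (k : ℕ) (v : ℤ) (F : ℕ → M) : M :=
  ∑ n ∈ range (10 ^ k), if fdig n = v then F n else 0

theorem W_zero {M : Type*} [AddCommMonoid M] (v : ℤ) (F : ℕ → M) :
    W 0 v F = if v = 0 then F 0 else 0 := by
  unfold W
  simp [fdig_zero, eq_comm]

theorem W_succ {M : Type*} [AddCommMonoid M] (k : ℕ) (v : ℤ) (F : ℕ → M) :
    W (k + 1) v F = ∑ b ∈ range 10, W k (v - chi b) (fun m => F (b + 10 * m)) := by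
  unfold W
  rw [pow_succ, sum_range_mul_ten, Finset.sum_comm]
  apply Finset.sum_congr rfl
  intro b hb
  apply Finset.sum_congr rfl
  intro m _
  rw [fdig_add b m (Finset.mem_range.mp hb)]
  have : chi b + fdig m = v ↔ fdig m = v - chi b := by
    constructor <;> intro h <;> linarith
  simp only [this]

/-- Number of `n < 10^k` with `fdig n = v`. -/
noncomputable def A (k : ℕ) (v : ℤ) : ℝ := W k v (fun _ => (1 : ℝ))

theorem A_zero (v : ℤ) : A 0 v = if v = 0 then 1 else 0 := by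
  unfold A; rw [W_zero]

theorem A_succ (k : ℕ) (v : ℤ) :
    A (k + 1) v = 4 * A k v + 3 * A k (v - 1) + 3 * A k (v + 1) := by
  unfold A
  rw [W_succ]
  simp only [Finset.sum_range_succ, Finset.sum_range_zero, chi]
  norm_num
  ring

theorem A_nonneg (k : ℕ) (v : ℤ) : 0 ≤ A k v := by
  unfold A W
  apply Finset.sum_nonneg
  intro n _
  split_ifs <;> norm_num

/-- Simple random walk counts. -/
def B : ℕ → ℤ → ℝ
  | 0, v => if v = 0 then 1 else 0
  | (j + 1), v => B j (v - 1) + B j (v + 1)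

theorem A_eq (k : ℕ) : ∀ v : ℤ,
    A k v = ∑ j ∈ range (k + 1), (k.choose j : ℝ) * 4 ^ (k - j) * 3 ^ j * B j v := by
  induction k with
  | zero => intro v; simp [A_zero, B]
  | succ k ih =>
    intro v
    rw [A_succ, ih v, ih (v - 1), ih (v + 1)]
    have h1 : 3 * ∑ j ∈ range (k + 1), (k.choose j : ℝ) * 4 ^ (k - j) * 3 ^ j * B j (v - 1)
        + 3 * ∑ j ∈ range (k + 1), (k.choose j : ℝ) * 4 ^ (k - j) * 3 ^ j * B j (v + 1)
        = ∑ j ∈ range (k + 1), (k.choose j : ℝ) * 4 ^ (k - j) * 3 ^ (j + 1) * B (j + 1) v := by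
      rw [Finset.mul_sum, Finset.mul_sum, ← Finset.sum_add_distrib]
      apply Finset.sum_congr rfl
      intro j _
      simp only [B]
      ring
    rw [add_assoc, h1]
    have h2 : 4 * ∑ j ∈ range (k + 1), (k.choose j : ℝ) * 4 ^ (k - j) * 3 ^ j * B j v
        = ∑ j ∈ range (k + 2), (k.choose j : ℝ) * 4 ^ (k + 1 - j) * 3 ^ j * B j v := by
      rw [Finset.sum_range_succ _ (k + 1)]
      simp only [Nat.choose_succ_self, Nat.cast_zero, zero_mul, add_zero]
      rw [Finset.mul_sum]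
      apply Finset.sum_congr rfl
      intro j hj
      have : k + 1 - j = k - j + 1 := by
        have := Finset.mem_range.mp hj
        omega
      rw [this, pow_succ]
      ring
    have h3 : ∑ j ∈ range (k + 1), (k.choose j : ℝ) * 4 ^ (k - j) * 3 ^ (j + 1) * B (j + 1) v
        = ∑ j ∈ range (k + 2), (if j = 0 then 0 else (k.choose (j - 1) : ℝ)) * 4 ^ (k + 1 - j)
          * 3 ^ j * B j v := by
      rw [Finset.sum_range_succ' _ (k + 1)]
      simp
    rw [h2, h3, ← Finset.sum_add_distrib]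
    apply Finset.sum_congr rfl
    intro j hj
    cases j with
    | zero => simp
    | succ j =>
      rw [Nat.choose_succ_succ]
      push_cast
      simp
      ring

theorem centralBinom_sq (n : ℕ) : ((n.centralBinom : ℝ)) ^ 2 * (2 * n + 1) ≤ 16 ^ n := by
  induction n with
  | zero => simp
  | succ n ih =>
    have h1 : ((n : ℝ) + 1) * ((n + 1).centralBinom : ℝ) = 2 * (2 * n + 1) * n.centralBinom := by
      have := Nat.succ_mul_centralBinom_succ n
      exact_mod_cast this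
    have h2 : (0 : ℝ) < (n : ℝ) + 1 := by positivity
    have h3 : ((n : ℝ) + 1) ^ 2 * (((n + 1).centralBinom : ℝ) ^ 2 * (2 * ((n : ℝ) + 1) + 1))
        ≤ ((n : ℝ) + 1) ^ 2 * 16 ^ (n + 1) := by
      calc ((n : ℝ) + 1) ^ 2 * (((n + 1).centralBinom : ℝ) ^ 2 * (2 * ((n : ℝ) + 1) + 1))
          = (((n : ℝ) + 1) * ((n + 1).centralBinom : ℝ)) ^ 2 * (2 * n + 3) := by ring
        _ = ((n.centralBinom : ℝ) ^ 2 * (2 * n + 1)) * (4 * (2 * n + 1) * (2 * n + 3)) := by
            rw [h1]; ring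
        _ ≤ 16 ^ n * (4 * (2 * n + 1) * (2 * n + 3)) := by gcongr
        _ ≤ 16 ^ n * (16 * ((n : ℝ) + 1) ^ 2) := by
            apply mul_le_mul_of_nonneg_left _ (by positivity)
            nlinarith
        _ = ((n : ℝ) + 1) ^ 2 * 16 ^ (n + 1) := by ring
    have := le_of_mul_le_mul_left h3 (by positivity)
    push_cast
    exact this

/-- Squares of middle binomials. -/
theorem choose_middle_sq (j : ℕ) : ((j.choose (j / 2) : ℝ)) ^ 2 * (j + 1) ≤ 4 ^ j := by
  rcases Nat.even_or_odd' j with ⟨n, rfl | rfl⟩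
  · have h1 : 2 * n / 2 = n := by omega
    rw [h1, ← Nat.centralBinom_eq_two_mul_choose, pow_mul]
    have := centralBinom_sq n
    norm_num
    exact this
  · have h1 : (2 * n + 1) / 2 = n := by omega
    rw [h1]
    have h2 : (n + 1).centralBinom = 2 * (2 * n + 1).choose n := by
      rw [Nat.centralBinom_eq_two_mul_choose, show 2 * (n + 1) = 2 * n + 1 + 1 by ring,
        Nat.choose_succ_succ, Nat.choose_symm_half]
      ring
    have h3 := centralBinom_sq (n + 1)
    rw [h2] at h3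
    push_cast at h3 ⊢
    have h4 : (0 : ℝ) ≤ ((2 * n + 1).choose n : ℝ) ^ 2 := by positivity
    have h5 : (4 : ℝ) ^ (2 * n + 1) = 4 * 16 ^ n := by
      rw [pow_succ, pow_mul]; norm_num; ring
    have h6 : (16 : ℝ) ^ (n + 1) = 16 * 16 ^ n := by ring
    rw [h5]
    rw [h6] at h3
    nlinarith

theorem B_neg (j : ℕ) : ∀ v : ℤ, v < -j → B j v = 0 := by
  induction j with
  | zero =>
    intro v hv
    simp only [B]
    rw [if_neg]
    intro h; subst h; simp at hv
  | succ j ih =>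
    intro v hv
    push_cast at hv
    simp only [B]
    rw [ih (v - 1) (by linarith), ih (v + 1) (by linarith), add_zero]

theorem B_odd (j : ℕ) : ∀ v : ℤ, ¬ (2 ∣ v + j) → B j v = 0 := by
  induction j with
  | zero =>
    intro v hv
    simp only [B]
    rw [if_neg]
    intro h; subst h; simp at hv
  | succ j ih =>
    intro v hv
    push_cast at hv
    simp only [B]
    rw [ih (v - 1) (by omega), ih (v + 1) (by omega), add_zero]

theorem B_choose (j : ℕ) : ∀ i : ℕ, B j (2 * i - j) = j.choose i := by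
  induction j with
  | zero =>
    intro i
    cases i with
    | zero => simp [B]
    | succ i =>
      simp only [B]
      rw [if_neg (by push_cast; omega)]
      simp
  | succ j ih =>
    intro i
    cases i with
    | zero =>
      simp only [B]
      have h1 := B_neg j (2 * ((0 : ℕ) : ℤ) - ((j + 1 : ℕ) : ℤ) - 1) (by push_cast; omega)
      have h2 := ih 0
      rw [h1]
      have : (2 * ((0 : ℕ) : ℤ) - ((j + 1 : ℕ) : ℤ) + 1) = 2 * ((0 : ℕ) : ℤ) - j := by
        push_cast; ring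
      rw [this, h2]
      simp
    | succ i =>
      simp only [B]
      have h1 : (2 * ((i + 1 : ℕ) : ℤ) - ((j + 1 : ℕ) : ℤ) - 1) = 2 * ((i : ℕ) : ℤ) - j := by
        push_cast; ring
      have h2 : (2 * ((i + 1 : ℕ) : ℤ) - ((j + 1 : ℕ) : ℤ) + 1) = 2 * ((i + 1 : ℕ) : ℤ) - j := by
        push_cast; ring
      rw [h1, h2, ih i, ih (i + 1), Nat.choose_succ_succ]
      push_cast
      ring

theorem B_le (j : ℕ) (v : ℤ) : B j v ≤ j.choose (j / 2) := by
  by_cases h1 : 2 ∣ v + j
  · by_cases h2 : v < -j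
    · rw [B_neg j v h2]; positivity
    · obtain ⟨c, hc⟩ := h1
      have hc0 : 0 ≤ c := by omega
      obtain ⟨i, rfl⟩ := Int.eq_ofNat_of_zero_le hc0
      have : v = 2 * (i : ℤ) - j := by linarith
      rw [this, B_choose]
      exact_mod_cast Nat.choose_le_middle i j
  · rw [B_odd j v h1]; positivity

/-- Anti-concentration. -/
theorem A_sq_le (k : ℕ) (v : ℤ) : (A k v) ^ 2 * (k + 1) ≤ 2 * (10 ^ k) ^ 2 := by
  have hw : ∀ j, (0 : ℝ) ≤ (k.choose j : ℝ) * 4 ^ (k - j) * 6 ^ j := fun j => by positivity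
  have h1 : A k v ≤ ∑ j ∈ range (k + 1), √((k.choose j : ℝ) * 4 ^ (k - j) * 6 ^ j)
      * √((k.choose j : ℝ) * 4 ^ (k - j) * 6 ^ j / (j + 1)) := by
    rw [A_eq]
    apply Finset.sum_le_sum
    intro j _
    have h2 : B j v ≤ 2 ^ j / √((j : ℝ) + 1) := by
      refine (B_le j v).trans ?_
      rw [le_div_iff₀ (by positivity)]
      have h3 := choose_middle_sq j
      have h4 : ((j.choose (j / 2) : ℝ) * √((j : ℝ) + 1)) ^ 2 ≤ (2 ^ j) ^ 2 := by
        rw [mul_pow, Real.sq_sqrt (by positivity), ← pow_mul, mul_comm j 2, pow_mul]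
        norm_num
        exact h3
      exact le_of_sq_le_sq h4 (by positivity)
    calc (k.choose j : ℝ) * 4 ^ (k - j) * 3 ^ j * B j v
        ≤ (k.choose j : ℝ) * 4 ^ (k - j) * 3 ^ j * (2 ^ j / √((j : ℝ) + 1)) := by gcongr
      _ = (k.choose j : ℝ) * 4 ^ (k - j) * 6 ^ j / √((j : ℝ) + 1) := by
          rw [show (6 : ℝ) = 3 * 2 by norm_num, mul_pow]; ring
      _ = _ := by
          rw [Real.sqrt_div (hw j), ← mul_div_assoc, Real.mul_self_sqrt (hw j)]
  have h2 : ∑ j ∈ range (k + 1), (k.choose j : ℝ) * 4 ^ (k - j) * 6 ^ j = 10 ^ k := by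
    have := add_pow (6 : ℝ) 4 k
    norm_num at this
    rw [this]
    apply Finset.sum_congr rfl
    intro j _
    ring
  have h3 : (∑ j ∈ range (k + 1), (k.choose j : ℝ) * 4 ^ (k - j) * 6 ^ j / (j + 1)) * (k + 1)
      ≤ 2 * 10 ^ k := by
    rw [Finset.sum_mul]
    have h4 : ∀ j ∈ range (k + 1), (k.choose j : ℝ) * 4 ^ (k - j) * 6 ^ j / (j + 1) * (k + 1)
        = ((k + 1).choose (j + 1) : ℝ) * 4 ^ (k + 1 - (j + 1)) * 6 ^ (j + 1) / 6 := by
      intro j _
      have h5 : ((k : ℝ) + 1) * (k.choose j : ℝ) = ((k + 1).choose (j + 1) : ℝ) * (j + 1) := by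
        exact_mod_cast Nat.add_one_mul_choose_eq k j
      have h6 : k + 1 - (j + 1) = k - j := by omega
      rw [h6, pow_succ]
      field_simp
      linear_combination h5
    rw [Finset.sum_congr rfl h4, ← Finset.sum_div]
    have h7 : ∑ j ∈ range (k + 1), ((k + 1).choose (j + 1) : ℝ) * 4 ^ (k + 1 - (j + 1))
        * 6 ^ (j + 1) ≤ 10 ^ (k + 1) := by
      have := add_pow (6 : ℝ) 4 (k + 1)
      norm_num at this
      rw [this, Finset.sum_range_succ' _ (k + 1)]
      have h8 : ∑ j ∈ range (k + 1), ((k + 1).choose (j + 1) : ℝ) * 4 ^ (k + 1 - (j + 1))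
        * 6 ^ (j + 1) = ∑ j ∈ range (k + 1), (6 : ℝ) ^ (j + 1) * 4 ^ (k + 1 - (j + 1))
          * ((k + 1).choose (j + 1) : ℝ) := by
        apply Finset.sum_congr rfl
        intro j _
        ring
      rw [h8]
      have : (0 : ℝ) ≤ 6 ^ 0 * 4 ^ (k + 1 - 0) * ((k + 1).choose 0 : ℝ) := by positivity
      linarith
    rw [pow_succ] at h7
    have : (0 : ℝ) ≤ 10 ^ k := by positivity
    linarith
  have h4 : A k v ^ 2 ≤ (∑ j ∈ range (k + 1), (k.choose j : ℝ) * 4 ^ (k - j) * 6 ^ j)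
      * ∑ j ∈ range (k + 1), (k.choose j : ℝ) * 4 ^ (k - j) * 6 ^ j / (j + 1) := by
    calc A k v ^ 2 ≤ (∑ j ∈ range (k + 1), √((k.choose j : ℝ) * 4 ^ (k - j) * 6 ^ j)
      * √((k.choose j : ℝ) * 4 ^ (k - j) * 6 ^ j / (j + 1))) ^ 2 :=
          pow_le_pow_left₀ (A_nonneg k v) h1 2
      _ ≤ (∑ j ∈ range (k + 1), √((k.choose j : ℝ) * 4 ^ (k - j) * 6 ^ j) ^ 2)
        * ∑ j ∈ range (k + 1), √((k.choose j : ℝ) * 4 ^ (k - j) * 6 ^ j / (j + 1)) ^ 2 :=
          Finset.sum_mul_sq_le_sq_mul_sq _ _ _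
      _ = _ := by
          congr 1
          · apply Finset.sum_congr rfl
            intro j _
            rw [Real.sq_sqrt (hw j)]
          · apply Finset.sum_congr rfl
            intro j _
            rw [Real.sq_sqrt (div_nonneg (hw j) (by positivity))]
  rw [h2] at h4
  have h5 : (0 : ℝ) ≤ 10 ^ k := by positivity
  have h6 : (0 : ℝ) ≤ (k : ℝ) + 1 := by positivity
  calc A k v ^ 2 * (k + 1) ≤ (10 ^ k * ∑ j ∈ range (k + 1), (k.choose j : ℝ) * 4 ^ (k - j)
        * 6 ^ j / (j + 1)) * (k + 1) := by gcongr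
    _ = 10 ^ k * ((∑ j ∈ range (k + 1), (k.choose j : ℝ) * 4 ^ (k - j)
        * 6 ^ j / (j + 1)) * (k + 1)) := by ring
    _ ≤ 10 ^ k * (2 * 10 ^ k) := by gcongr
    _ = _ := by ring

end Pool.Agent.W_MP_002644_nt
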