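import Pool.Agent.W_MP_002644_nt.Defs

set_option autoImplicit false

namespace Pool.Agent.W_MP_002644_nt

/-- `0, 1, -1` according to the residue of the digit mod 3. -/
def chi (b : ℕ) : ℤ := if b % 3 = 0 then 0 else if b % 3 = 1 then 1 else -1

/-- The digital function. -/
def fdig (n : ℕ) : ℤ := ((Nat.digits 10 n).map chi).sum

theorem fdig_zero : fdig 0 = 0 := by simp [fdig]

theorem fdig_add (b m : ℕ) (hb : b < 10) : fdig (b + 10 * m) = chi b + fdig m := by
  unfold fdig
  rcases Nat.eq_zero_or_pos (b + 10 * m) with h | h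
  · have h1 : b = 0 := by omega
    have h2 : m = 0 := by omega
    subst h1 h2
    simp [chi]
  · rw [Nat.digits_def' (by norm_num) h]
    have h1 : (b + 10 * m) % 10 = b := by omega
    have h2 : (b + 10 * m) / 10 = m := by omega
    rw [h1, h2]
    simp

theorem chi_modEq (b : ℕ) : (b : ℤ) ≡ chi b [ZMOD 3] := by
  unfold chi
  have := Nat.mod_lt b (by norm_num : 3 > 0)
  split_ifs with h1 h2
  · rw [Int.ModEq]; omega
  · rw [Int.ModEq]; omega
  · rw [Int.ModEq]; omega

theorem chi_abs (b : ℕ) : |chi b| ≤ 1 := by
  unfold chi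
  split_ifs <;> simp

theorem fdig_modEq (n : ℕ) : (n : ℤ) ≡ fdig n [ZMOD 3] := by
  induction n using Nat.strong_induction_on with
  | _ n ih =>
    rcases Nat.eq_zero_or_pos n with rfl | h
    · simp [fdig]
    · have h1 : n = n % 10 + 10 * (n / 10) := by omega
      have h2 := ih (n / 10) (by omega)
      have h3 := chi_modEq (n % 10)
      have h4 : fdig n = chi (n % 10) + fdig (n / 10) := by
        conv_lhs => rw [h1]
        exact fdig_add _ _ (by omega)
      rw [h4]
      rw [Int.ModEq] at *
      omega

theorem fdig_ofDigits (l : List ℕ) (hl : ∀ b ∈ l, b < 10) :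
    fdig (Nat.ofDigits 10 l) = (l.map chi).sum := by
  induction l with
  | nil => simp [fdig]
  | cons a l ih =>
    rw [Nat.ofDigits_cons, List.map_cons, List.sum_cons]
    have := fdig_add a (Nat.ofDigits 10 l) (hl a (by simp))
    rw [← ih (fun b hb => hl b (by simp [hb])), ← this]

theorem sum_eraseIdx (l : List ℤ) (i : ℕ) (hi : i < l.length) :
    l.sum = (l.eraseIdx i).sum + l[i] := by
  induction l generalizing i with
  | nil => simp at hi
  | cons a l ih =>
    cases i with
    | zero => simp [add_comm]
    | succ i =>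
      simp only [List.length_cons, Nat.add_lt_add_iff_right] at hi
      simp only [List.sum_cons, List.eraseIdx_cons_succ, List.getElem_cons_succ]
      rw [ih i hi]; ring

/-- The mod 3 barrier. -/
theorem Deletable.abs_fdig_le {p : ℕ} (h : Deletable p) : |fdig p| ≤ 2 := by
  induction h with
  | single p hp h =>
    have h1 : fdig p = chi p + fdig 0 := by
      have := fdig_add p 0 h
      simpa using this
    rw [h1, fdig_zero, add_zero]
    exact (chi_abs p).trans (by norm_num)
  | step p i hp hi h ih =>
    have hl : ∀ b ∈ (Nat.digits 10 p).eraseIdx i, b < 10 := by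
      intro b hb
      exact Nat.digits_lt_base (by norm_num) ((List.eraseIdx_subset) hb)
    rw [fdig_ofDigits _ hl] at ih
    have h1 : fdig p = (((Nat.digits 10 p).eraseIdx i).map chi).sum
        + chi ((Nat.digits 10 p)[i]) := by
      have h2 := sum_eraseIdx ((Nat.digits 10 p).map chi) i (by simpa using hi)
      unfold fdig
      rw [h2, List.eraseIdx_map]
      simp
    have h3 := chi_abs ((Nat.digits 10 p)[i])
    have h4 : |fdig p| ≤ 3 := by
      rw [h1]
      rw [abs_le] at *
      constructor <;> linarith [ih.1, ih.2, h3.1, h3.2]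
    by_contra hcon
    push Not at hcon
    have h5 : |fdig p| = 3 := by omega
    have h6 := fdig_modEq p
    have h7 : (3 : ℤ) ∣ (p : ℤ) := by
      rw [Int.ModEq] at h6
      rcases abs_cases (fdig p) with ⟨h8, _⟩ | ⟨h8, _⟩ <;> omega
    have h8 : 3 ∣ p := by exact_mod_cast h7
    have h9 : 3 = p := (Nat.prime_dvd_prime_iff_eq Nat.prime_three hp).mp h8
    rw [← h9] at h5
    have h10 : fdig 3 = 0 := by
      have := fdig_add 3 0 (by norm_num)
      simpa [chi, fdig_zero] using this
    rw [h10] at h5
    simp at h5

end Pool.Agent.W_MP_002644_nt
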