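import Mathlib

set_option autoImplicit false

namespace Pool.Agent.W_MP_002644_nt

open Finset

/-- Sieve weight. -/
noncomputable def gw (r : ℕ) (c : ℕ) : ℝ := if c ≤ 2 * r then (-1) ^ c else 0

theorem bonferroni (r : ℕ) (Q0 : Finset ℕ) :
    (if Q0 = ∅ then (1 : ℝ) else 0) ≤ ∑ Q ∈ Q0.powerset, gw r (Q.card) := by
  rw [Finset.sum_powerset_apply_card (gw r)]
  have h1 : ∑ m ∈ range (Q0.card + 1), (Q0.card).choose m • gw r m
      = ∑ m ∈ range (2 * r + 1), (-1 : ℝ) ^ m * ((Q0.card).choose m : ℝ) := by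
    have h2 : ∑ m ∈ range (Q0.card + 1), (Q0.card).choose m • gw r m
        = ∑ m ∈ range (Q0.card + 1 + (2 * r + 1)), (Q0.card).choose m • gw r m := by
      rw [Finset.sum_range_add _ (Q0.card + 1) (2 * r + 1)]
      rw [Finset.sum_eq_zero (s := range (2 * r + 1)), add_zero]
      intro m _
      rw [Nat.choose_eq_zero_of_lt (by omega)]
      simp
    have h3 : ∑ m ∈ range (2 * r + 1), (-1 : ℝ) ^ m * ((Q0.card).choose m : ℝ)
        = ∑ m ∈ range (2 * r + 1 + (Q0.card + 1)), (Q0.card).choose m • gw r m := by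
      rw [Finset.sum_range_add _ (2 * r + 1) (Q0.card + 1)]
      rw [Finset.sum_eq_zero (s := range (Q0.card + 1)), add_zero]
      · apply Finset.sum_congr rfl
        intro m hm
        have := Finset.mem_range.mp hm
        unfold gw
        rw [if_pos (by omega), nsmul_eq_mul]
        ring
      · intro m _
        unfold gw
        rw [if_neg (by omega)]
        simp
    rw [h2, h3, add_comm]
  rw [h1]
  rcases Nat.eq_zero_or_pos Q0.card with h | h
  · have : Q0 = ∅ := Finset.card_eq_zero.mp h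
    rw [if_pos this, h]
    rw [Finset.sum_range_succ']
    simp
  · have : Q0 ≠ ∅ := by
      intro hc; rw [hc] at h; simp at h
    rw [if_neg this]
    obtain ⟨q, hq⟩ : ∃ q, Q0.card = q + 1 := ⟨Q0.card - 1, by omega⟩
    rw [hq]
    have h4 := @Int.alternating_sum_range_choose_eq_choose q (2 * r)
    have h5 : ∑ m ∈ range (2 * r + 1), (-1 : ℝ) ^ m * (((q + 1).choose m : ℕ) : ℝ)
        = (((-1) ^ (2 * r) * (q.choose (2 * r) : ℤ) : ℤ) : ℝ) := by
      rw [← h4]; push_cast; rfl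
    rw [h5, pow_mul]
    simp

theorem prod_dvd_iff (P : Finset ℕ) (hP : ∀ p ∈ P, p.Prime) (n : ℕ) :
    (∏ p ∈ P, p) ∣ n ↔ ∀ p ∈ P, p ∣ n := by
  constructor
  · intro h p hp
    exact (Finset.dvd_prod_of_mem _ hp).trans h
  · intro h
    exact Finset.prod_primes_dvd n (fun p hp => (hP p hp).prime) h

/-- Brun's pure sieve (upper bound). -/
theorem brun (S P : Finset ℕ) (hP : ∀ p ∈ P, p.Prime) (r : ℕ) (ε T : ℝ) (hε : 0 ≤ ε)
    (hT : T = ∑ p ∈ P, (1 : ℝ) / p)
    (heq : ∀ Q ⊆ P, Q.card ≤ 2 * r →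
      |((S.filter (fun n => (∏ p ∈ Q, p) ∣ n)).card : ℝ) - (S.card : ℝ) / (∏ p ∈ Q, p : ℕ)|
        ≤ ε * ((S.card : ℝ) / (∏ p ∈ Q, p : ℕ))) :
    ((S.filter (fun n => ∀ p ∈ P, ¬ p ∣ n)).card : ℝ)
      ≤ S.card * (Real.exp (-T) + Real.exp (Real.exp 1 * T - 2 * r) + ε * Real.exp T) := by
  classical
  -- counting function
  set N : Finset ℕ → ℝ := fun Q => ((S.filter (fun n => (∏ p ∈ Q, p) ∣ n)).card : ℝ) with hN
  have hPpos : ∀ p ∈ P, (0 : ℝ) < p := fun p hp => by exact_mod_cast (hP p hp).pos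
  have hP2 : ∀ p ∈ P, (2 : ℝ) ≤ p := fun p hp => by exact_mod_cast (hP p hp).two_le
  -- step 1
  have s1 : ((S.filter (fun n => ∀ p ∈ P, ¬ p ∣ n)).card : ℝ)
      ≤ ∑ Q ∈ P.powerset, gw r Q.card * N Q := by
    calc ((S.filter (fun n => ∀ p ∈ P, ¬ p ∣ n)).card : ℝ)
        = ∑ n ∈ S, (if (P.filter (fun p => p ∣ n)) = ∅ then (1 : ℝ) else 0) := by
          rw [Finset.card_filter]
          push_cast
          apply Finset.sum_congr rfl
          intro n _
          congr 1
          rw [Finset.filter_eq_empty_iff]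
      _ ≤ ∑ n ∈ S, ∑ Q ∈ (P.filter (fun p => p ∣ n)).powerset, gw r Q.card :=
          Finset.sum_le_sum (fun n _ => bonferroni r _)
      _ = ∑ n ∈ S, ∑ Q ∈ P.powerset, (if (∏ p ∈ Q, p) ∣ n then gw r Q.card else 0) := by
          apply Finset.sum_congr rfl
          intro n _
          rw [← Finset.sum_filter]
          apply Finset.sum_congr _ (fun _ _ => rfl)
          ext Q
          rw [Finset.mem_powerset, Finset.mem_filter, Finset.mem_powerset]
          constructor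
          · intro h0
            have h1 : Q ⊆ P := h0.trans (Finset.filter_subset _ _)
            exact ⟨h1, (prod_dvd_iff Q (fun p hp => hP p (h1 hp)) n).mpr
              (fun p hp => (Finset.mem_filter.mp (h0 hp)).2)⟩
          · rintro ⟨h1, h2⟩ p hp
            exact Finset.mem_filter.mpr
              ⟨h1 hp, (prod_dvd_iff Q (fun p hp => hP p (h1 hp)) n).mp h2 p hp⟩
      _ = ∑ Q ∈ P.powerset, ∑ n ∈ S, (if (∏ p ∈ Q, p) ∣ n then gw r Q.card else 0) :=
          Finset.sum_comm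
      _ = ∑ Q ∈ P.powerset, gw r Q.card * N Q := by
          apply Finset.sum_congr rfl
          intro Q _
          rw [← Finset.sum_filter, Finset.sum_const, nsmul_eq_mul, mul_comm]
  -- abbreviations
  have hinv : ∀ Q ∈ P.powerset, (1 : ℝ) / (∏ p ∈ Q, p : ℕ) = ∏ p ∈ Q, (1 : ℝ) / p := by
    intro Q _
    rw [Finset.prod_div_distrib]
    simp
  have hprodpos : ∀ Q ∈ P.powerset, (0 : ℝ) < ∏ p ∈ Q, (1 : ℝ) / p := by
    intro Q hQ
    apply Finset.prod_pos
    intro p hp
    have := hPpos p (Finset.mem_powerset.mp hQ hp)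
    positivity
  -- step 2
  have s2 : ∀ Q ∈ P.powerset, gw r Q.card * N Q
      ≤ S.card * (((-1) ^ Q.card * ∏ p ∈ Q, (1 : ℝ) / p)
        + (Real.exp (-(2 * r)) * ∏ p ∈ Q, (Real.exp 1 / p)) + ε * ∏ p ∈ Q, (1 : ℝ) / p) := by
    intro Q hQ
    have hpos := hprodpos Q hQ
    have hS : (0 : ℝ) ≤ S.card := by positivity
    have he : ∏ p ∈ Q, (Real.exp 1 / p) = Real.exp Q.card * ∏ p ∈ Q, (1 : ℝ) / p := by
      have : ∀ p ∈ Q, Real.exp 1 / (p : ℝ) = Real.exp 1 * (1 / p) := fun p _ => by ring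
      rw [Finset.prod_congr rfl this, Finset.prod_mul_distrib, Finset.prod_const, ← Real.exp_nat_mul,
        mul_one]
    unfold gw
    split_ifs with h
    · have h1 := heq Q (Finset.mem_powerset.mp hQ) h
      have h2 : (S.card : ℝ) / (∏ p ∈ Q, p : ℕ) = S.card * ∏ p ∈ Q, (1 : ℝ) / p := by
        rw [← hinv Q hQ]; ring
      rw [h2] at h1
      have h3 : |(-1 : ℝ) ^ Q.card * (N Q - S.card * ∏ p ∈ Q, (1 : ℝ) / p)|
          ≤ ε * (S.card * ∏ p ∈ Q, (1 : ℝ) / p) := by
        rw [abs_mul, abs_pow, abs_neg, abs_one, one_pow, one_mul]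
        exact h1
      have h4 := le_of_abs_le h3
      have h5 : 0 ≤ (S.card : ℝ) * (Real.exp (-(2 * r)) * ∏ p ∈ Q, (Real.exp 1 / p)) := by
        rw [he]; positivity
      linarith
    · push Not at h
      rw [zero_mul, he]
      have h6 : (1 : ℝ) ≤ Real.exp (-(2 * r)) * Real.exp Q.card := by
        rw [← Real.exp_add]
        apply Real.one_le_exp
        have : (2 * (r : ℝ)) < Q.card := by exact_mod_cast h
        linarith
      have h7 : -1 ≤ (-1 : ℝ) ^ Q.card := by
        rcases neg_one_pow_eq_or ℝ Q.card with h | h <;> rw [h] <;> norm_num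
      have h8 : 0 ≤ ((-1 : ℝ) ^ Q.card + Real.exp (-(2 * r)) * Real.exp Q.card + ε) := by
        linarith
      have h9 : (S.card : ℝ) * (((-1) ^ Q.card * ∏ p ∈ Q, (1 : ℝ) / p)
        + (Real.exp (-(2 * r)) * (Real.exp Q.card * ∏ p ∈ Q, (1 : ℝ) / p))
          + ε * ∏ p ∈ Q, (1 : ℝ) / p)
        = S.card * (∏ p ∈ Q, (1 : ℝ) / p)
          * ((-1 : ℝ) ^ Q.card + Real.exp (-(2 * r)) * Real.exp Q.card + ε) := by ring
      rw [h9]
      positivity
  -- products
  have t1 : ∑ Q ∈ P.powerset, (-1 : ℝ) ^ Q.card * ∏ p ∈ Q, (1 : ℝ) / p ≤ Real.exp (-T) := by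
    have h1 : ∀ Q ∈ P.powerset, (-1 : ℝ) ^ Q.card * ∏ p ∈ Q, (1 : ℝ) / p
        = ∏ p ∈ Q, (-(1 / (p : ℝ))) := by
      intro Q _
      rw [Finset.prod_neg]
    rw [Finset.sum_congr rfl h1, ← Finset.prod_one_add, hT, ← Finset.sum_neg_distrib,
      Real.exp_sum]
    apply Finset.prod_le_prod
    · intro p hp
      have := hP2 p hp
      have : 1 / (p : ℝ) ≤ 1 / 2 := by
        apply one_div_le_one_div_of_le (by norm_num) this
      linarith
    · intro p _
      have := Real.add_one_le_exp (-(1 / (p : ℝ)))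
      linarith
  have t2 : ∑ Q ∈ P.powerset, ∏ p ∈ Q, (Real.exp 1 / (p : ℝ)) ≤ Real.exp (Real.exp 1 * T) := by
    rw [← Finset.prod_one_add, hT, Finset.mul_sum, Real.exp_sum]
    apply Finset.prod_le_prod
    · intro p hp
      have := hPpos p hp
      positivity
    · intro p _
      have := Real.add_one_le_exp (Real.exp 1 * (1 / (p : ℝ)))
      have h2 : Real.exp 1 / (p : ℝ) = Real.exp 1 * (1 / (p : ℝ)) := by ring
      rw [h2]
      linarith
  have t3 : ∑ Q ∈ P.powerset, ∏ p ∈ Q, (1 : ℝ) / p ≤ Real.exp T := by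
    rw [← Finset.prod_one_add, hT, Real.exp_sum]
    apply Finset.prod_le_prod
    · intro p hp
      have := hPpos p hp
      positivity
    · intro p _
      have := Real.add_one_le_exp (1 / (p : ℝ))
      linarith
  refine s1.trans ((Finset.sum_le_sum s2).trans ?_)
  rw [← Finset.mul_sum, Finset.sum_add_distrib, Finset.sum_add_distrib, ← Finset.mul_sum,
    ← Finset.mul_sum]
  have hS : (0 : ℝ) ≤ S.card := by positivity
  apply mul_le_mul_of_nonneg_left _ hS
  have h10 : Real.exp (-(2 * r)) * ∑ Q ∈ P.powerset, ∏ p ∈ Q, (Real.exp 1 / (p : ℝ))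
      ≤ Real.exp (Real.exp 1 * T - 2 * r) := by
    rw [sub_eq_add_neg, add_comm (Real.exp 1 * T), Real.exp_add]
    apply mul_le_mul_of_nonneg_left t2 (Real.exp_pos _).le
  have h11 := mul_le_mul_of_nonneg_left t3 hε
  linarith

end Pool.Agent.W_MP_002644_nt
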