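import Pool.Agent.W_MP_002644_nt.AntiConc

set_option autoImplicit false

namespace Pool.Agent.W_MP_002644_nt

open Finset ZMod

variable {d : ℕ} [NeZero d]

/-- Character sum over `n < 10^k` with `fdig n = v`. -/
noncomputable def E (k : ℕ) (v : ℤ) (x : ZMod d) : ℂ :=
  W k v (fun n => stdAddChar (x * (n : ZMod d)))

noncomputable def kap (y : ZMod d) : ℝ := (1 + ‖1 + (stdAddChar y : ℂ)‖) / 3

theorem norm_char (y : ZMod d) : ‖(stdAddChar y : ℂ)‖ = 1 := by
  rw [stdAddChar_apply]; exact Circle.norm_coe _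

theorem kap_nonneg (y : ZMod d) : 0 ≤ kap y := by unfold kap; positivity

theorem norm_one_add_le (y : ZMod d) : ‖1 + (stdAddChar y : ℂ)‖ ≤ 2 := by
  calc _ ≤ ‖(1:ℂ)‖ + ‖(stdAddChar y : ℂ)‖ := norm_add_le _ _
    _ = 2 := by rw [norm_char]; norm_num

theorem kap_le_one (y : ZMod d) : kap y ≤ 1 := by
  unfold kap
  have := norm_one_add_le y
  linarith

theorem W_congr {M : Type*} [AddCommMonoid M] (k : ℕ) (v : ℤ) (F G : ℕ → M)
    (h : ∀ n, F n = G n) : W k v F = W k v G := by
  have : F = G := funext h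
  rw [this]

theorem W_mul_left (k : ℕ) (v : ℤ) (c : ℂ) (F : ℕ → ℂ) :
    W k v (fun n => c * F n) = c * W k v F := by
  unfold W
  rw [Finset.mul_sum]
  apply Finset.sum_congr rfl
  intro n _
  split_ifs <;> simp

theorem E_succ (k : ℕ) (v : ℤ) (x : ZMod d) :
    E (k + 1) v x = ∑ b ∈ range 10, stdAddChar (x * (b : ZMod d)) * E k (v - chi b) (10 * x) := by
  unfold E
  rw [W_succ]
  apply Finset.sum_congr rfl
  intro b _
  rw [← W_mul_left]
  apply W_congr
  intro n
  rw [← AddChar.map_add_eq_mul]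
  congr 1
  push_cast
  ring

theorem three_terms (x y : ZMod d) (z : ℂ) :
    ‖(stdAddChar x : ℂ) * z + stdAddChar (x + y) * z + stdAddChar (x + y + y) * z‖
      ≤ 3 * kap y * ‖z‖ := by
  have h : (stdAddChar x : ℂ) * z + stdAddChar (x + y) * z + stdAddChar (x + y + y) * z
    = stdAddChar x * ((1 + stdAddChar y) + stdAddChar y * stdAddChar y) * z := by
    simp only [AddChar.map_add_eq_mul]; ring
  rw [h, norm_mul, norm_mul, norm_char, one_mul]
  gcongr
  calc _ ≤ ‖1 + (stdAddChar y : ℂ)‖ + ‖(stdAddChar y : ℂ) * stdAddChar y‖ := norm_add_le _ _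
    _ = 3 * kap y := by rw [norm_mul, norm_char]; unfold kap; ring

theorem four_terms (y : ZMod d) (z : ℂ) :
    ‖z + stdAddChar y * z + stdAddChar (y + y) * z + stdAddChar (y + y + y) * z‖
      ≤ 4 * kap y * ‖z‖ := by
  have h : z + stdAddChar y * z + stdAddChar (y + y) * z + stdAddChar (y + y + y) * z
    = (1 + stdAddChar y) * (1 + stdAddChar (y + y)) * z := by
    simp only [AddChar.map_add_eq_mul]; ring
  rw [h, norm_mul, norm_mul]
  apply mul_le_mul_of_nonneg_right _ (norm_nonneg z)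
  have h1 := norm_one_add_le y
  have h2 := norm_one_add_le (y + y)
  have h3 : 0 ≤ ‖1 + (stdAddChar y : ℂ)‖ := norm_nonneg _
  calc _ ≤ ‖1 + (stdAddChar y : ℂ)‖ * 2 := by gcongr
    _ ≤ 4 * kap y := by unfold kap; linarith

theorem norm_E_le (k : ℕ) : ∀ (v : ℤ) (x : ZMod d),
    ‖E k v x‖ ≤ A k v * ∏ j ∈ range k, kap (10 ^ j * (3 * x)) := by
  induction k with
  | zero =>
    intro v x
    unfold E A
    rw [W_zero, W_zero]
    split_ifs <;> simp
  | succ k ih =>
    intro v x
    have hP : ∏ j ∈ range (k + 1), kap (10 ^ j * (3 * x))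
        = kap (3 * x) * ∏ j ∈ range k, kap (10 ^ j * (3 * (10 * x))) := by
      rw [Finset.prod_range_succ', mul_comm]
      congr 1
      · simp
      · apply Finset.prod_congr rfl
        intro j _
        congr 1
        ring
    rw [E_succ, hP, A_succ]
    have hexp : ∑ b ∈ range 10, (stdAddChar (x * (b : ZMod d)) : ℂ) * E k (v - chi b) (10 * x)
        = (E k v (10 * x) + stdAddChar (3 * x) * E k v (10 * x)
            + stdAddChar (3 * x + 3 * x) * E k v (10 * x)
            + stdAddChar (3 * x + 3 * x + 3 * x) * E k v (10 * x))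
          + (stdAddChar x * E k (v - 1) (10 * x) + stdAddChar (x + 3 * x) * E k (v - 1) (10 * x)
            + stdAddChar (x + 3 * x + 3 * x) * E k (v - 1) (10 * x))
          + (stdAddChar (2 * x) * E k (v + 1) (10 * x)
            + stdAddChar (2 * x + 3 * x) * E k (v + 1) (10 * x)
            + stdAddChar (2 * x + 3 * x + 3 * x) * E k (v + 1) (10 * x)) := by
      simp only [Finset.sum_range_succ, Finset.sum_range_zero, chi]
      norm_num
      rw [show x * 2 = 2 * x by ring, show x * 3 = 3 * x by ring, show x * 4 = x + 3 * x by ring,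
        show x * 5 = 2 * x + 3 * x by ring, show x * 6 = 3 * x + 3 * x by ring,
        show x * 7 = x + 3 * x + 3 * x by ring, show x * 8 = 2 * x + 3 * x + 3 * x by ring,
        show x * 9 = 3 * x + 3 * x + 3 * x by ring]
      ring
    rw [hexp]
    have h0 := four_terms (3 * x) (E k v (10 * x))
    have h1 := three_terms x (3 * x) (E k (v - 1) (10 * x))
    have h2 := three_terms (2 * x) (3 * x) (E k (v + 1) (10 * x))
    have i0 := ih v (10 * x)
    have i1 := ih (v - 1) (10 * x)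
    have i2 := ih (v + 1) (10 * x)
    set Q := ∏ j ∈ range k, kap (10 ^ j * (3 * (10 * x))) with hQ
    have hk := kap_nonneg (3 * x)
    calc _ ≤ 4 * kap (3 * x) * ‖E k v (10 * x)‖ + 3 * kap (3 * x) * ‖E k (v - 1) (10 * x)‖
          + 3 * kap (3 * x) * ‖E k (v + 1) (10 * x)‖ := by
          refine (norm_add₃_le).trans ?_
          gcongr
      _ ≤ 4 * kap (3 * x) * (A k v * Q) + 3 * kap (3 * x) * (A k (v - 1) * Q)
          + 3 * kap (3 * x) * (A k (v + 1) * Q) := by gcongr
      _ = _ := by ring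

/-- Orthogonality: the number of `n < 10^k` with `fdig n = v` divisible by `d`. -/
noncomputable def Ad (k : ℕ) (v : ℤ) (d : ℕ) : ℝ := W k v (fun n => if d ∣ n then (1 : ℝ) else 0)

theorem sum_E (k : ℕ) (v : ℤ) : ∑ x : ZMod d, E k v x = (d : ℂ) * (Ad k v d : ℂ) := by
  unfold E Ad W
  rw [Finset.sum_comm]
  push_cast
  rw [Finset.mul_sum]
  apply Finset.sum_congr rfl
  intro n _
  by_cases h : fdig n = v
  · simp only [h, if_true]
    rw [AddChar.sum_mulShift _ (isPrimitive_stdAddChar d)]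
    by_cases h2 : d ∣ n
    · have h3 : (n : ZMod d) = 0 := (ZMod.natCast_eq_zero_iff n d).mpr h2
      simp [h2, h3, ZMod.card]
    · have h3 : ¬ (n : ZMod d) = 0 := fun h => h2 ((ZMod.natCast_eq_zero_iff n d).mp h)
      simp [h2, h3]
  · simp [h]

theorem E_zero_right (k : ℕ) (v : ℤ) : E k v (0 : ZMod d) = (A k v : ℂ) := by
  unfold E A W
  push_cast
  apply Finset.sum_congr rfl
  intro n _
  split_ifs <;> simp

theorem abs_Ad_sub_le (k : ℕ) (v : ℤ) :
    |Ad k v d - A k v / d| ≤ A k v / d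
      * ∑ x ∈ (univ : Finset (ZMod d)).erase 0, ∏ j ∈ range k, kap (10 ^ j * (3 * x)) := by
  have hd : (0 : ℝ) < d := by
    have := NeZero.pos d
    exact_mod_cast this
  have h1 := sum_E (d := d) k v
  rw [← Finset.add_sum_erase _ _ (Finset.mem_univ (0 : ZMod d)), E_zero_right] at h1
  have h2 : ((d : ℝ) * (Ad k v d - A k v / d) : ℝ)
      = (∑ x ∈ (univ : Finset (ZMod d)).erase 0, E k v x) := by
    have : (d : ℝ) * (Ad k v d - A k v / d) = d * Ad k v d - A k v := by
      field_simp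
    rw [this]
    push_cast
    rw [← h1]
    ring
  have h3 : (d : ℝ) * |Ad k v d - A k v / d|
      = ‖∑ x ∈ (univ : Finset (ZMod d)).erase 0, E k v x‖ := by
    rw [← h2, Complex.norm_real, Real.norm_eq_abs, abs_mul, abs_of_pos hd]
  have h4 : (d : ℝ) * |Ad k v d - A k v / d| ≤ A k v
      * ∑ x ∈ (univ : Finset (ZMod d)).erase 0, ∏ j ∈ range k, kap (10 ^ j * (3 * x)) := by
    rw [h3, Finset.mul_sum]
    exact norm_sum_le_of_le _ (fun x _ => norm_E_le k v x)
  rw [div_mul_eq_mul_div, le_div_iff₀ hd]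
  linarith

/-! ### Non-small frequencies -/

/-- `kap` is bounded away from `1` unless `y` is small. -/
theorem kap_le_of_not_small (y : ZMod d) (h : (d : ℤ) ≤ 20 * |y.valMinAbs|) :
    kap y ≤ 299 / 300 := by
  have hd : (0 : ℝ) < d := by
    have := NeZero.pos d
    exact_mod_cast this
  have h1 : (stdAddChar y : ℂ) = Complex.exp (2 * Real.pi * Complex.I * (y.valMinAbs : ℤ) / d) := by
    conv_lhs => rw [← coe_valMinAbs y]
    rw [stdAddChar_coe]
  set θ : ℝ := 2 * Real.pi * (y.valMinAbs : ℝ) / d with hθ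
  have h2 : (stdAddChar y : ℂ) = Complex.exp (θ * Complex.I) := by
    rw [h1, hθ]; congr 1; push_cast; ring
  have h3 : ‖1 + (stdAddChar y : ℂ)‖ ^ 2 = 2 + 2 * Real.cos θ := by
    rw [h2, Complex.sq_norm, Complex.normSq_apply, Complex.exp_mul_I]
    simp [Complex.cos_ofReal_re, Complex.sin_ofReal_re, Complex.cos_ofReal_im,
      Complex.sin_ofReal_im]
    have := Real.sin_sq_add_cos_sq θ
    nlinarith
  have hmem := y.valMinAbs_mem_Ioc
  have h4 : |(y.valMinAbs : ℝ)| * 2 ≤ d := by
    have h5 : |y.valMinAbs| * 2 ≤ d := by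
      rcases abs_cases y.valMinAbs with ⟨h, _⟩ | ⟨h, _⟩ <;> rw [h] <;>
        linarith [hmem.1, hmem.2]
    have h6 : ((|y.valMinAbs| * 2 : ℤ) : ℝ) ≤ ((d : ℤ) : ℝ) := by exact_mod_cast h5
    push_cast at h6
    exact h6
  have h5 : |θ| ≤ Real.pi := by
    rw [hθ, abs_div, abs_mul, abs_mul, abs_of_pos Real.pi_pos, abs_of_pos hd, abs_two,
      div_le_iff₀ hd]
    nlinarith [Real.pi_pos]
  have h6 := Real.cos_le_one_sub_mul_cos_sq h5
  have h7 : (1 : ℝ) / 400 ≤ ((y.valMinAbs : ℝ) / d) ^ 2 := by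
    have h8 : (1 : ℝ) / 20 ≤ |(y.valMinAbs : ℝ) / d| := by
      rw [abs_div, abs_of_pos hd, div_le_div_iff₀ (by norm_num) hd]
      have h9 : ((d : ℤ) : ℝ) ≤ ((20 * |y.valMinAbs| : ℤ) : ℝ) := by exact_mod_cast h
      push_cast at h9
      linarith
    rw [← sq_abs]
    nlinarith
  have h8 : 2 / Real.pi ^ 2 * θ ^ 2 = 8 * ((y.valMinAbs : ℝ) / d) ^ 2 := by
    rw [hθ]
    have := Real.pi_pos
    field_simp
    ring
  have h9 : ‖1 + (stdAddChar y : ℂ)‖ ^ 2 ≤ (199 / 100 : ℝ) ^ 2 := by
    rw [h3]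
    rw [h8] at h6
    norm_num
    linarith
  have h10 : ‖1 + (stdAddChar y : ℂ)‖ ≤ 199 / 100 := le_of_sq_le_sq h9 (by norm_num)
  unfold kap
  linarith

/-- The carry digit of multiplication by 10. -/
def dig (y : ZMod d) : ℤ := (10 * y.valMinAbs - (10 * y).valMinAbs) / d

theorem dig_spec (y : ZMod d) : (d : ℤ) * dig y = 10 * y.valMinAbs - (10 * y).valMinAbs := by
  unfold dig
  apply Int.mul_ediv_cancel'
  rw [← ZMod.intCast_zmod_eq_zero_iff_dvd]
  push_cast
  ring

theorem dig_small (y : ZMod d) (h : 20 * |y.valMinAbs| < d) : dig y = 0 := by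
  have h1 : (10 * y).valMinAbs = 10 * y.valMinAbs := by
    rw [valMinAbs_spec]
    constructor
    · push_cast; ring
    · rcases abs_cases y.valMinAbs with ⟨h2, _⟩ | ⟨h2, _⟩ <;> rw [h2] at h <;>
        constructor <;> linarith
  unfold dig
  rw [h1]; simp

theorem abs_dig_le (y : ZMod d) : |dig y| ≤ 5 := by
  have h1 := dig_spec y
  have h2 := y.valMinAbs_mem_Ioc
  have h3 := (10 * y).valMinAbs_mem_Ioc
  have hd : (0 : ℤ) < d := by
    have := NeZero.pos d
    exact_mod_cast this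
  have h4 : dig y ≤ 5 := by
    by_contra hc
    push Not at hc
    have h6 : (6 : ℤ) ≤ dig y := by omega
    nlinarith [h2.1, h2.2, h3.1, h3.2]
  have h5 : -5 ≤ dig y := by
    by_contra hc
    push Not at hc
    have h6 : dig y ≤ -6 := by omega
    nlinarith [h2.1, h2.2, h3.1, h3.2]
  exact abs_le.mpr ⟨h5, h4⟩

theorem dig_injective (L : ℕ) : ∀ (y z : ZMod d), d < 10 ^ L →
    (∀ i < L, dig (10 ^ i * y) = dig (10 ^ i * z)) → y = z := by
  intro y z hL hdig
  -- telescoping: 10^j (v(y) - v(z)) = v(10^j y) - v(10^j z)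
  have key : ∀ j ≤ L, (10 : ℤ) ^ j * (y.valMinAbs - z.valMinAbs)
      = (10 ^ j * y).valMinAbs - (10 ^ j * z).valMinAbs := by
    intro j
    induction j with
    | zero => intro _; simp
    | succ j ih =>
      intro hj
      have h1 := ih (by omega)
      have h2 := dig_spec (10 ^ j * y)
      have h3 := dig_spec (10 ^ j * z)
      rw [hdig j (by omega)] at h2
      have e1 : (10 : ZMod d) * (10 ^ j * y) = 10 ^ (j + 1) * y := by ring
      have e2 : (10 : ZMod d) * (10 ^ j * z) = 10 ^ (j + 1) * z := by ring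
      rw [e1] at h2
      rw [e2] at h3
      rw [pow_succ]
      linear_combination 10 * h1 - h2 + h3
  have h1 := key L le_rfl
  have h2 := (10 ^ L * y).valMinAbs_mem_Ioc
  have h3 := (10 ^ L * z).valMinAbs_mem_Ioc
  have hL' : (d : ℤ) < 10 ^ L := by exact_mod_cast hL
  have h4 : y.valMinAbs - z.valMinAbs = 0 := by
    by_contra hne
    rcases lt_or_gt_of_ne hne with hlt | hgt
    · have : y.valMinAbs - z.valMinAbs ≤ -1 := by omega
      nlinarith [h2.1, h2.2, h3.1, h3.2]
    · have : 1 ≤ y.valMinAbs - z.valMinAbs := by omega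
      nlinarith [h2.1, h2.2, h3.1, h3.2]
  exact injective_valMinAbs (by linarith)

end Pool.Agent.W_MP_002644_nt
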