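import Mathlib

set_option autoImplicit false

namespace Pool.Agent.W_MP_002644_nt

open Finset

noncomputable def invHom : ℕ →* ℝ where
  toFun n := (n : ℝ)⁻¹
  map_one' := by simp
  map_mul' := by intro a b; push_cast; rw [mul_inv]

theorem harmonic_le_prod (N : ℕ) :
    ∑ m ∈ Finset.Ico 1 N, ((m : ℝ))⁻¹ ≤ ∏ p ∈ N.primesBelow, (1 - (p : ℝ)⁻¹)⁻¹ := by
  have h : ∀ {p : ℕ}, p.Prime → ‖invHom p‖ < 1 := by
    intro p hp
    have : (2 : ℝ) ≤ p := by exact_mod_cast hp.two_le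
    simp only [invHom, MonoidHom.coe_mk, OneHom.coe_mk, norm_inv, Real.norm_natCast]
    apply inv_lt_one_of_one_lt₀
    linarith
  obtain ⟨_, hs⟩ := EulerProduct.summable_and_hasSum_smoothNumbers_prod_primesBelow_geometric h N
  have h1 : ∑ m ∈ (Finset.Ico 1 N).subtype (fun m => m ∈ N.smoothNumbers), invHom m
      ≤ ∏ p ∈ N.primesBelow, (1 - invHom p)⁻¹ := by
    apply sum_le_hasSum _ _ hs
    intro i _
    simp only [invHom, MonoidHom.coe_mk, OneHom.coe_mk]
    positivity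
  have h2 : ∑ m ∈ (Finset.Ico 1 N).subtype (fun m => m ∈ N.smoothNumbers), invHom m
      = ∑ m ∈ Finset.Ico 1 N, invHom m := by
    apply Finset.sum_subtype_of_mem (fun m => invHom m)
    intro m hm
    rw [Finset.mem_Ico] at hm
    exact Nat.mem_smoothNumbers_of_lt (by omega) hm.2
  rw [h2] at h1
  exact h1

theorem log_le_exp_sum (N : ℕ) (hN : 2 ≤ N) :
    Real.log N ≤ Real.exp (∑ p ∈ N.primesBelow, ((p : ℝ) - 1)⁻¹) := by
  have h1 : Real.log N ≤ ∑ m ∈ Finset.Ico 1 N, ((m : ℝ))⁻¹ := by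
    have h2 := log_add_one_le_harmonic (N - 1)
    have h3 : N - 1 + 1 = N := by omega
    rw [h3, harmonic_eq_sum_Icc] at h2
    have h4 : Finset.Icc 1 (N - 1) = Finset.Ico 1 N := by
      ext x; simp only [Finset.mem_Icc, Finset.mem_Ico]; omega
    rw [h4] at h2
    push_cast at h2
    exact h2
  refine h1.trans ((harmonic_le_prod N).trans ?_)
  rw [Real.exp_sum]
  apply Finset.prod_le_prod
  · intro p hp
    have : (2 : ℝ) ≤ p := by exact_mod_cast (Nat.prime_of_mem_primesBelow hp).two_le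
    have h5 : (p : ℝ)⁻¹ ≤ 1 := inv_le_one_of_one_le₀ (by linarith)
    apply inv_nonneg.mpr
    linarith
  · intro p hp
    have h2 : (2 : ℝ) ≤ p := by exact_mod_cast (Nat.prime_of_mem_primesBelow hp).two_le
    have h3 : (1 - (p : ℝ)⁻¹)⁻¹ = ((p : ℝ) - 1)⁻¹ + 1 := by
      have h4 : (p : ℝ) ≠ 0 := by linarith
      have h5 : (p : ℝ) - 1 ≠ 0 := by linarith
      have h6 : (1 - (p : ℝ)⁻¹) = (p - 1) / p := by field_simp
      rw [h6, inv_div]
      field_simp
      ring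
    rw [h3]
    exact Real.add_one_le_exp _

theorem sum_tail_le (N : ℕ) :
    ∑ p ∈ N.primesBelow, (((p : ℝ) - 1)⁻¹ - (p : ℝ)⁻¹) ≤ 1 := by
  have h1 : ∀ M : ℕ, ∑ n ∈ Finset.range M, ((((n + 2 : ℕ) : ℝ) - 1)⁻¹ - ((n + 2 : ℕ) : ℝ)⁻¹)
      ≤ 1 - ((M + 1 : ℕ) : ℝ)⁻¹ := by
    intro M
    induction M with
    | zero => simp
    | succ M ih =>
      rw [Finset.sum_range_succ]
      have : ((M + 2 : ℕ) : ℝ) - 1 = ((M + 1 : ℕ) : ℝ) := by push_cast; ring
      rw [this]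
      linarith
  have h2 : ∑ p ∈ N.primesBelow, (((p : ℝ) - 1)⁻¹ - (p : ℝ)⁻¹)
      ≤ ∑ n ∈ Finset.Ico 2 (N + 2), (((n : ℝ) - 1)⁻¹ - (n : ℝ)⁻¹) := by
    apply Finset.sum_le_sum_of_subset_of_nonneg
    · intro p hp
      have := Nat.prime_of_mem_primesBelow hp
      have h3 := Nat.lt_of_mem_primesBelow hp
      rw [Finset.mem_Ico]
      exact ⟨this.two_le, by omega⟩
    · intro n hn _
      rw [Finset.mem_Ico] at hn
      have : (2 : ℝ) ≤ n := by exact_mod_cast hn.1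
      have h3 : (n : ℝ)⁻¹ ≤ ((n : ℝ) - 1)⁻¹ := by
        apply inv_anti₀ <;> linarith
      linarith
  rw [Finset.sum_Ico_eq_sum_range] at h2
  have h3 := h1 N
  have h4 : (0 : ℝ) ≤ ((N + 1 : ℕ) : ℝ)⁻¹ := by positivity
  have h5 : ∑ k ∈ Finset.range (N + 2 - 2), ((((2 + k : ℕ) : ℝ) - 1)⁻¹ - ((2 + k : ℕ) : ℝ)⁻¹)
      = ∑ n ∈ Finset.range N, ((((n + 2 : ℕ) : ℝ) - 1)⁻¹ - ((n + 2 : ℕ) : ℝ)⁻¹) := by
    apply Finset.sum_congr (by simp)
    intro k _
    rw [add_comm 2 k]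
  rw [h5] at h2
  linarith

/-- Sum of reciprocals of the primes `5 < p < N`. -/
noncomputable def hs (N : ℕ) : ℝ := ∑ p ∈ N.primesBelow.filter (fun p => 5 < p), (1 : ℝ) / p

theorem loglog_le (N : ℕ) (hN : 2 ≤ N) : Real.log (Real.log N) ≤ hs N + 3 := by
  have hlog : 0 < Real.log N := Real.log_pos (by exact_mod_cast hN)
  have h1 := log_le_exp_sum N hN
  have h2 : Real.log (Real.log N) ≤ ∑ p ∈ N.primesBelow, ((p : ℝ) - 1)⁻¹ := by
    rw [Real.log_le_iff_le_exp hlog]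
    exact h1
  have h3 := sum_tail_le N
  rw [Finset.sum_sub_distrib] at h3
  have h4 : ∑ p ∈ N.primesBelow, (p : ℝ)⁻¹ ≤ hs N + 2 := by
    have h5 : ∑ p ∈ N.primesBelow, (p : ℝ)⁻¹
        = hs N + ∑ p ∈ N.primesBelow.filter (fun p => ¬ 5 < p), (p : ℝ)⁻¹ := by
      unfold hs
      rw [← Finset.sum_filter_add_sum_filter_not N.primesBelow (fun p => 5 < p)]
      simp
    have h6 : ∑ p ∈ N.primesBelow.filter (fun p => ¬ 5 < p), (p : ℝ)⁻¹
        ≤ ∑ p ∈ ({2, 3, 5} : Finset ℕ), (p : ℝ)⁻¹ := by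
      apply Finset.sum_le_sum_of_subset_of_nonneg
      · intro p hp
        rw [Finset.mem_filter] at hp
        have h7 := Nat.prime_of_mem_primesBelow hp.1
        have h8 : p ≤ 5 := by omega
        interval_cases p <;> revert h7 <;> decide
      · intro p _ _
        positivity
    have h7 : ∑ p ∈ ({2, 3, 5} : Finset ℕ), (p : ℝ)⁻¹ ≤ 2 := by
      rw [Finset.sum_insert (by decide), Finset.sum_insert (by decide), Finset.sum_singleton]
      norm_num
    rw [h5]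
    linarith
  linarith

theorem hs_zero : hs 0 = 0 := by simp [hs]

theorem hs_succ_le (M : ℕ) : hs (M + 1) ≤ hs M + 1 := by
  unfold hs
  rw [Nat.primesBelow_succ]
  split_ifs with h
  · rw [Finset.filter_insert]
    split_ifs with h2
    · rw [Finset.sum_insert (by simp [Nat.notMem_primesBelow])]
      have : (1 : ℝ) / M ≤ 1 := by
        rw [div_le_one (by exact_mod_cast h.pos)]
        exact_mod_cast h.pos
      linarith
    · linarith
  · linarith

theorem exists_primeSet (T0 : ℝ) (hT0 : 0 < T0) : ∃ P : Finset ℕ,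
    (∀ p ∈ P, p.Prime ∧ 5 < p ∧ (p : ℝ) ≤ Real.exp (Real.exp (T0 + 3))) ∧
    T0 ≤ ∑ p ∈ P, (1 : ℝ) / p ∧ ∑ p ∈ P, (1 : ℝ) / p ≤ T0 + 1 := by
  classical
  have hex : ∃ N, T0 ≤ hs N := by
    set x := Real.exp (Real.exp (T0 + 3)) with hx
    refine ⟨⌈x⌉₊ + 2, ?_⟩
    have h1 := loglog_le (⌈x⌉₊ + 2) (by omega)
    have h2 : x ≤ ((⌈x⌉₊ + 2 : ℕ) : ℝ) := by
      push_cast
      have := Nat.le_ceil x
      linarith
    have h3 : Real.exp (T0 + 3) ≤ Real.log ((⌈x⌉₊ + 2 : ℕ) : ℝ) := by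
      rw [Real.le_log_iff_exp_le (by positivity)]
      exact h2
    have h4 : T0 + 3 ≤ Real.log (Real.log ((⌈x⌉₊ + 2 : ℕ) : ℝ)) := by
      rw [Real.le_log_iff_exp_le (lt_of_lt_of_le (Real.exp_pos _) h3)]
      exact h3
    linarith
  have hspec := Nat.find_spec hex
  have hmin : ∀ m, m < Nat.find hex → hs m < T0 := by
    intro m hm
    have := Nat.find_min hex hm
    push Not at this
    exact this
  obtain ⟨M, hM⟩ : ∃ M, Nat.find hex = M + 1 := by
    rcases Nat.eq_zero_or_pos (Nat.find hex) with h | h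
    · rw [h, hs_zero] at hspec
      linarith
    · exact ⟨Nat.find hex - 1, by omega⟩
  rw [hM] at hspec hmin
  have hlt := hmin M (by omega)
  refine ⟨(M + 1).primesBelow.filter (fun p => 5 < p), ?_, hspec, ?_⟩
  · intro p hp
    rw [Finset.mem_filter] at hp
    have h1 := Nat.prime_of_mem_primesBelow hp.1
    have h2 := Nat.lt_of_mem_primesBelow hp.1
    refine ⟨h1, hp.2, ?_⟩
    have h3 : (p : ℝ) ≤ M := by exact_mod_cast (by omega : p ≤ M)
    refine h3.trans ?_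
    have hM2 : 2 ≤ M := by omega
    have h4 := loglog_le M hM2
    have h5 : Real.log (Real.log M) ≤ T0 + 3 := by linarith
    have h6 : 0 < Real.log M := Real.log_pos (by exact_mod_cast hM2)
    rw [Real.log_le_iff_le_exp h6, Real.log_le_iff_le_exp (by exact_mod_cast (by omega : 0 < M))] at h5
    exact h5
  · have := hs_succ_le M
    change hs (M + 1) ≤ T0 + 1
    linarith

end Pool.Agent.W_MP_002644_nt
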