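import Pool.Agent.W_MP_002644_nt.Equidist
import Pool.Agent.W_MP_002644_nt.Brun
import Pool.Agent.W_MP_002644_nt.PrimeSet

set_option autoImplicit false

namespace Pool.Agent.W_MP_002644_nt

open Finset

/-- The integers below `10^k` satisfying the barrier condition. -/
def S (k : ℕ) : Finset ℕ := (range (10 ^ k)).filter (fun n => |fdig n| ≤ 2)

theorem card_S_filter (k : ℕ) (q : ℕ → Prop) [DecidablePred q] :
    (((S k).filter q).card : ℝ) = ∑ v ∈ Finset.Icc (-2 : ℤ) 2, W k v (fun n => if q n then (1 : ℝ) else 0) := by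
  unfold S W
  rw [Finset.sum_comm, Finset.filter_filter, Finset.card_filter]
  push_cast
  apply Finset.sum_congr rfl
  intro n _
  rw [Finset.sum_ite_eq]
  by_cases h : |fdig n| ≤ 2
  · have h2 : fdig n ∈ Finset.Icc (-2 : ℤ) 2 := Finset.mem_Icc.mpr (abs_le.mp h)
    rw [if_pos h2]
    simp [h]
  · have h2 : ¬ fdig n ∈ Finset.Icc (-2 : ℤ) 2 := by
      rw [Finset.mem_Icc]; exact fun h3 => h (abs_le.mpr h3)
    rw [if_neg h2]
    simp [h]

theorem card_S (k : ℕ) : ((S k).card : ℝ) = ∑ v ∈ Finset.Icc (-2 : ℤ) 2, A k v := by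
  have := card_S_filter k (fun _ => True)
  simpa [A] using this

theorem card_S_sq (k : ℕ) : ((S k).card : ℝ) ^ 2 * (k + 1) ≤ 50 * (10 ^ k) ^ 2 := by
  rw [card_S]
  have h1 : (∑ v ∈ Finset.Icc (-2 : ℤ) 2, A k v) ^ 2
      ≤ (Finset.Icc (-2 : ℤ) 2).card * ∑ v ∈ Finset.Icc (-2 : ℤ) 2, (A k v) ^ 2 :=
    sq_sum_le_card_mul_sum_sq
  have h2 : (Finset.Icc (-2 : ℤ) 2).card = 5 := by decide
  rw [h2] at h1
  have h3 : (∑ v ∈ Finset.Icc (-2 : ℤ) 2, (A k v) ^ 2) * (k + 1) ≤ 10 * (10 ^ k) ^ 2 := by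
    rw [Finset.sum_mul]
    calc ∑ v ∈ Finset.Icc (-2 : ℤ) 2, (A k v) ^ 2 * ((k : ℝ) + 1)
        ≤ ∑ _v ∈ Finset.Icc (-2 : ℤ) 2, 2 * ((10 : ℝ) ^ k) ^ 2 :=
          Finset.sum_le_sum (fun v _ => A_sq_le k v)
      _ = 10 * (10 ^ k) ^ 2 := by
          rw [Finset.sum_const, h2, nsmul_eq_mul]; push_cast; ring
  have h4 : (0 : ℝ) ≤ (k : ℝ) + 1 := by positivity
  calc _ ≤ (((5 : ℕ) : ℝ) * ∑ v ∈ Finset.Icc (-2 : ℤ) 2, (A k v) ^ 2) * (k + 1) := by gcongr
    _ = 5 * ((∑ v ∈ Finset.Icc (-2 : ℤ) 2, (A k v) ^ 2) * (k + 1)) := by push_cast; ring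
    _ ≤ 5 * (10 * (10 ^ k) ^ 2) := by gcongr
    _ = _ := by ring

theorem equidist_S (k m L d : ℕ) (hd0 : 0 < d) (hm : 0 < m) (h : m * L ≤ k) (hL : d < 10 ^ L)
    (hd : Nat.Coprime d 30) :
    |(((S k).filter (fun n => d ∣ n)).card : ℝ) - (S k).card / d|
      ≤ (m * ((1 + 10 * (299 / 300 : ℝ) ^ m) ^ L - 1)) * ((S k).card / d) := by
  haveI : NeZero d := ⟨hd0.ne'⟩
  rw [card_S_filter, card_S, Finset.sum_div, ← Finset.sum_sub_distrib]
  refine (Finset.abs_sum_le_sum_abs _ _).trans ?_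
  rw [Finset.mul_sum]
  apply Finset.sum_le_sum
  intro v _
  have := equidist (d := d) k m L v hm h hL hd
  rw [mul_comm] at this
  exact this

/-- Deletable primes below `10^k`. -/
noncomputable def Dset (k : ℕ) : Finset ℕ := by
  classical exact (range (10 ^ k)).filter (fun p => Deletable p)

theorem Deletable.prime {p : ℕ} (h : Deletable p) : p.Prime := by
  cases h with
  | single p hp h => exact hp
  | step p i hp hi h => exact hp

theorem Dset_le (k m : ℕ) (hm : 337 ≤ m) (hk : m ^ 7 ≤ k)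
    (hρ : 60 * (m : ℝ) ^ 15 * (299 / 300 : ℝ) ^ m ≤ 1) :
    ((Dset k).card : ℝ) ≤ (S k).card * (3 / (m : ℝ) ^ 4) + Real.exp (21 * (m : ℝ) ^ 4) + 1 := by
  classical
  have hm0 : (0 : ℝ) < m := by exact_mod_cast (by omega : 0 < m)
  have hm1 : (337 : ℝ) ≤ m := by exact_mod_cast hm
  set T0 : ℝ := 4 * Real.log m with hT0
  have hT0pos : 0 < T0 := by
    have : 0 < Real.log m := Real.log_pos (by linarith)
    positivity
  have hexpT0 : Real.exp T0 = (m : ℝ) ^ 4 := by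
    rw [hT0, show (4 : ℝ) * Real.log m = ((4 : ℕ) : ℝ) * Real.log m by norm_num,
      Real.exp_nat_mul, Real.exp_log hm0]
  obtain ⟨P, hP, hT1, hT2⟩ := exists_primeSet T0 hT0pos
  set T : ℝ := ∑ p ∈ P, (1 : ℝ) / p with hT
  set z : ℝ := Real.exp (Real.exp (T0 + 3)) with hz
  have he3 : Real.exp 3 ≤ 21 := by
    have h1 : Real.exp 3 = (Real.exp 1) ^ 3 := by rw [← Real.exp_nat_mul]; norm_num
    rw [h1]
    have h2 := Real.exp_one_lt_d9
    have h3 : (Real.exp 1) ^ 3 ≤ (2.7182818286 : ℝ) ^ 3 :=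
      pow_le_pow_left₀ (Real.exp_pos 1).le h2.le 3
    refine h3.trans (by norm_num)
  have hexp3 : Real.exp (T0 + 3) ≤ 21 * (m : ℝ) ^ 4 := by
    rw [Real.exp_add, hexpT0, mul_comm]
    gcongr
  have hzle : z ≤ Real.exp (21 * (m : ℝ) ^ 4) := Real.exp_le_exp.mpr hexp3
  -- sieve
  set ε : ℝ := m * ((1 + 10 * (299 / 300 : ℝ) ^ m) ^ (m ^ 6) - 1) with hε
  have hε0 : 0 ≤ ε := by
    rw [hε]
    have : (1 : ℝ) ≤ (1 + 10 * (299 / 300 : ℝ) ^ m) ^ (m ^ 6) := by
      apply one_le_pow₀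
      have : (0 : ℝ) ≤ (299 / 300 : ℝ) ^ m := by positivity
      linarith
    have h2 : 0 ≤ (1 + 10 * (299 / 300 : ℝ) ^ m) ^ (m ^ 6) - 1 := by linarith
    positivity
  have hlog10 : (1 : ℝ) ≤ Real.log 10 := by
    rw [Real.le_log_iff_exp_le (by norm_num)]
    have := Real.exp_one_lt_d9
    linarith
  have hsieve := brun (S k) P (fun p hp => (hP p hp).1) (8 * m) ε T hε0 hT (by
    intro Q hQ hcard
    have hQpos : 0 < ∏ p ∈ Q, p := Finset.prod_pos (fun p hp => (hP p (hQ hp)).1.pos)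
    refine equidist_S k m (m ^ 6) (∏ p ∈ Q, p) hQpos (by omega) ?_ ?_ ?_
    · calc m * m ^ 6 = m ^ 7 := by ring
        _ ≤ k := hk
    · -- size of the product
      have h1 : ((∏ p ∈ Q, p : ℕ) : ℝ) ≤ Real.exp (21 * (m : ℝ) ^ 4) ^ (2 * (8 * m)) := by
        push_cast
        calc ∏ p ∈ Q, (p : ℝ) ≤ ∏ _p ∈ Q, Real.exp (21 * (m : ℝ) ^ 4) := by
              apply Finset.prod_le_prod
              · intro p _; positivity
              · intro p hp; exact ((hP p (hQ hp)).2.2).trans hzle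
          _ = Real.exp (21 * (m : ℝ) ^ 4) ^ Q.card := by rw [Finset.prod_const]
          _ ≤ _ := by
              apply pow_le_pow_right₀ _ hcard
              apply Real.one_le_exp
              positivity
      have h2 : Real.exp (21 * (m : ℝ) ^ 4) ^ (2 * (8 * m)) < (10 : ℝ) ^ (m ^ 6) := by
        rw [← Real.exp_nat_mul, ← Real.exp_log (by norm_num : (0 : ℝ) < 10), ← Real.exp_nat_mul]
        rw [Real.exp_lt_exp]
        push_cast
        calc 2 * (8 * (m : ℝ)) * (21 * (m : ℝ) ^ 4) = 336 * (m : ℝ) ^ 5 := by ring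
          _ < m * (m : ℝ) ^ 5 := by
              apply mul_lt_mul_of_pos_right _ (by positivity)
              linarith
          _ = (m : ℝ) ^ 6 * 1 := by ring
          _ ≤ (m : ℝ) ^ 6 * Real.log 10 := by gcongr
      exact_mod_cast lt_of_le_of_lt h1 h2
    · -- coprimality
      apply Nat.Coprime.prod_left
      intro p hp
      obtain ⟨hp1, hp2, _⟩ := hP p (hQ hp)
      rw [Nat.Prime.coprime_iff_not_dvd hp1]
      intro hdvd
      have : p ∣ 2 * 3 * 5 := by simpa using hdvd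
      rcases (Nat.Prime.dvd_mul hp1).mp this with h | h
      · rcases (Nat.Prime.dvd_mul hp1).mp h with h | h
        · have := Nat.le_of_dvd (by norm_num) h; omega
        · have := Nat.le_of_dvd (by norm_num) h; omega
      · have := Nat.le_of_dvd (by norm_num) h; omega)
  -- the three error terms
  have hm4 : (0 : ℝ) < (m : ℝ) ^ 4 := by positivity
  have b1 : Real.exp (-T) ≤ 1 / (m : ℝ) ^ 4 := by
    rw [Real.exp_neg, ← hexpT0, one_div]
    apply inv_anti₀ (Real.exp_pos _)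
    exact Real.exp_le_exp.mpr hT1
  have b2 : Real.exp (Real.exp 1 * T - 2 * ((8 * m : ℕ) : ℝ)) ≤ 1 / (m : ℝ) ^ 4 := by
    refine le_trans (Real.exp_le_exp.mpr ?_) b1
    have h1 := Real.exp_one_lt_d9
    have h2 : Real.log m ≤ m - 1 := Real.log_le_sub_one_of_pos hm0
    have h3 : T ≤ 4 * (m : ℝ) - 3 := by linarith
    have hTpos : 0 < T := lt_of_lt_of_le hT0pos hT1
    have h4 : Real.exp 1 * T ≤ 3 * T := by nlinarith
    push_cast
    linarith
  have b3 : ε * Real.exp T ≤ 1 / (m : ℝ) ^ 4 := by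
    set ρ : ℝ := (299 / 300 : ℝ) ^ m with hρdef
    have hρ0 : 0 ≤ ρ := by positivity
    have h1 : 10 * ρ * (m : ℝ) ^ 6 ≤ 1 := by
      have : (m : ℝ) ^ 6 ≤ (m : ℝ) ^ 15 := pow_le_pow_right₀ (by linarith) (by norm_num)
      calc 10 * ρ * (m : ℝ) ^ 6 ≤ 10 * ρ * (m : ℝ) ^ 15 := by gcongr
        _ ≤ 60 * (m : ℝ) ^ 15 * ρ := by nlinarith [pow_pos hm0 15]
        _ ≤ 1 := hρ
    have h2 : (1 + 10 * ρ) ^ (m ^ 6) - 1 ≤ 2 * (10 * ρ * (m : ℝ) ^ 6) := by
      have h3 : (1 + 10 * ρ) ^ (m ^ 6) ≤ Real.exp (10 * ρ * (m : ℝ) ^ 6) := by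
        have h4 : (1 + 10 * ρ) ≤ Real.exp (10 * ρ) := by
          have := Real.add_one_le_exp (10 * ρ)
          linarith
        calc (1 + 10 * ρ) ^ (m ^ 6) ≤ (Real.exp (10 * ρ)) ^ (m ^ 6) := by gcongr
          _ = Real.exp (10 * ρ * (m : ℝ) ^ 6) := by
              rw [← Real.exp_nat_mul]; push_cast; ring_nf
      have h5 : Real.exp (10 * ρ * (m : ℝ) ^ 6) ≤ 1 + 2 * (10 * ρ * (m : ℝ) ^ 6) := by
        set y := 10 * ρ * (m : ℝ) ^ 6 with hy
        have hy0 : 0 ≤ y := by positivity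
        have h6 := Real.abs_exp_sub_one_le (x := y) (by rw [abs_of_nonneg hy0]; exact h1)
        rw [abs_of_nonneg hy0] at h6
        have := le_of_abs_le h6
        linarith
      linarith
    have h7 : ε ≤ 20 * (m : ℝ) ^ 7 * ρ := by
      rw [hε]
      calc (m : ℝ) * ((1 + 10 * ρ) ^ (m ^ 6) - 1) ≤ m * (2 * (10 * ρ * (m : ℝ) ^ 6)) := by gcongr
        _ = _ := by ring
    have h8 : Real.exp T ≤ 3 * (m : ℝ) ^ 4 := by
      calc Real.exp T ≤ Real.exp (T0 + 1) := Real.exp_le_exp.mpr hT2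
        _ = Real.exp 1 * (m : ℝ) ^ 4 := by rw [Real.exp_add, hexpT0, mul_comm]
        _ ≤ 3 * (m : ℝ) ^ 4 := by
            have := Real.exp_one_lt_d9
            gcongr
            linarith
    rw [le_div_iff₀ hm4]
    calc ε * Real.exp T * (m : ℝ) ^ 4 ≤ (20 * (m : ℝ) ^ 7 * ρ) * (3 * (m : ℝ) ^ 4) * (m : ℝ) ^ 4 := by
          gcongr
      _ = 60 * (m : ℝ) ^ 15 * ρ := by ring
      _ ≤ 1 := hρ
  -- conclusion
  have hsub : Dset k ⊆ ((S k).filter (fun n => ∀ p ∈ P, ¬ p ∣ n)) ∪ P := by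
    intro p hp
    unfold Dset at hp
    rw [Finset.mem_filter] at hp
    obtain ⟨hp1, hp2⟩ := hp
    by_cases hpP : p ∈ P
    · exact Finset.mem_union_right _ hpP
    · apply Finset.mem_union_left
      rw [Finset.mem_filter]
      refine ⟨?_, ?_⟩
      · unfold S
        rw [Finset.mem_filter]
        exact ⟨hp1, hp2.abs_fdig_le⟩
      · intro q hq hdvd
        have := (Nat.prime_dvd_prime_iff_eq (hP q hq).1 hp2.prime).mp hdvd
        rw [this] at hq
        exact hpP hq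
  have hPcard : (P.card : ℝ) ≤ z + 1 := by
    have h1 : P ⊆ range (⌊z⌋₊ + 1) := by
      intro p hp
      rw [Finset.mem_range]
      have := Nat.le_floor (hP p hp).2.2
      omega
    have h2 := Finset.card_le_card h1
    rw [Finset.card_range] at h2
    have h3 : (P.card : ℝ) ≤ (⌊z⌋₊ : ℝ) + 1 := by exact_mod_cast h2
    have h4 : (⌊z⌋₊ : ℝ) ≤ z := Nat.floor_le (Real.exp_pos _).le
    linarith
  have hcard : ((Dset k).card : ℝ)
      ≤ (((S k).filter (fun n => ∀ p ∈ P, ¬ p ∣ n)).card : ℝ) + P.card := by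
    have h1 := Finset.card_le_card hsub
    have h2 := Finset.card_union_le ((S k).filter (fun n => ∀ p ∈ P, ¬ p ∣ n)) P
    exact_mod_cast h1.trans h2
  have hS0 : (0 : ℝ) ≤ (S k).card := by positivity
  have h9 : ((S k).card : ℝ) * (Real.exp (-T) + Real.exp (Real.exp 1 * T - 2 * ((8 * m : ℕ) : ℝ))
      + ε * Real.exp T) ≤ (S k).card * (3 / (m : ℝ) ^ 4) := by
    apply mul_le_mul_of_nonneg_left _ hS0
    have : (3 : ℝ) / (m : ℝ) ^ 4 = 1 / (m : ℝ) ^ 4 + 1 / (m : ℝ) ^ 4 + 1 / (m : ℝ) ^ 4 := by ring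
    rw [this]
    linarith
  linarith

end Pool.Agent.W_MP_002644_nt
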