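import Mathlib

set_option autoImplicit false

namespace Pool.Agent.W_MP_002644_nt

/-- Deletable primes (base 10): a prime `p` is deletable if it has a single digit, or if
deleting one of its decimal digits (`Nat.digits 10 p` is the list of digits of `p`) and reading
the remaining string as a decimal integer gives a deletable prime. -/
inductive Deletable : ℕ → Prop
  | single (p : ℕ) (hp : p.Prime) (h : p < 10) : Deletable p
  | step (p i : ℕ) (hp : p.Prime) (hi : i < (Nat.digits 10 p).length)
      (h : Deletable (Nat.ofDigits 10 ((Nat.digits 10 p).eraseIdx i))) : Deletable p

end Pool.Agent.W_MP_002644_nt
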