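import Pool.Agent.W_MP_002644_nt.CharSum

set_option autoImplicit false

namespace Pool.Agent.W_MP_002644_nt

open Finset ZMod

variable {d : ℕ} [NeZero d]

noncomputable def G (L : ℕ) (y : ZMod d) : ℝ := ∏ i ∈ range L, kap (10 ^ i * y)

theorem G_nonneg (L : ℕ) (y : ZMod d) : 0 ≤ G L y :=
  Finset.prod_nonneg (fun _ _ => kap_nonneg _)

theorem prod_blocks (L : ℕ) (y : ZMod d) : ∀ m : ℕ,
    ∏ j ∈ range (m * L), kap (10 ^ j * y) = ∏ t ∈ range m, G L (10 ^ (t * L) * y) := by
  intro m
  induction m with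
  | zero => simp
  | succ m ih =>
    rw [Nat.succ_mul, Finset.prod_range_add, ih, Finset.prod_range_succ _ m]
    congr 1
    unfold G
    apply Finset.prod_congr rfl
    intro i _
    congr 1
    rw [pow_add]
    ring

theorem prod_le_blocks (k m L : ℕ) (h : m * L ≤ k) (y : ZMod d) :
    ∏ j ∈ range k, kap (10 ^ j * y) ≤ ∏ t ∈ range m, G L (10 ^ (t * L) * y) := by
  obtain ⟨s, rfl⟩ := Nat.exists_eq_add_of_le h
  rw [Finset.prod_range_add, prod_blocks]
  apply mul_le_of_le_one_right
  · exact Finset.prod_nonneg (fun _ _ => G_nonneg _ _)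
  · exact Finset.prod_le_one (fun _ _ => kap_nonneg _) (fun _ _ => kap_le_one _)

theorem prod_le_sum_pow (m : ℕ) (hm : 0 < m) (g : ℕ → ℝ) (hg : ∀ t, 0 ≤ g t) :
    ∏ t ∈ range m, g t ≤ ∑ t ∈ range m, g t ^ m := by
  obtain ⟨t0, ht0, hmax⟩ := Finset.exists_max_image (range m) g ⟨0, by simpa using hm⟩
  calc ∏ t ∈ range m, g t ≤ ∏ _t ∈ range m, g t0 :=
        Finset.prod_le_prod (fun t _ => hg t) hmax
    _ = g t0 ^ m := by simp
    _ ≤ ∑ t ∈ range m, g t ^ m :=
        Finset.single_le_sum (f := fun t => g t ^ m) (fun t _ => pow_nonneg (hg t) m) ht0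

theorem sum_erase_unit (u : (ZMod d)ˣ) (F : ZMod d → ℝ) :
    ∑ y ∈ (univ : Finset (ZMod d)).erase 0, F (u * y)
      = ∑ y ∈ (univ : Finset (ZMod d)).erase 0, F y := by
  apply Finset.sum_equiv (Units.mulLeft u)
  · intro i
    simp
  · intro i _
    simp

theorem sum_digits (ρ : ℝ) :
    ∑ a ∈ Finset.Icc (-5 : ℤ) 5, (if a = 0 then (1 : ℝ) else ρ) = 1 + 10 * ρ := by
  rw [Finset.sum_ite]
  have h1 : ((Finset.Icc (-5 : ℤ) 5).filter (fun a => a = 0)).card = 1 := by decide
  have h2 : ((Finset.Icc (-5 : ℤ) 5).filter (fun a => ¬ a = 0)).card = 10 := by decide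
  rw [Finset.sum_const, Finset.sum_const, h1, h2]
  simp

theorem sum_G_pow (L m : ℕ) (hL : d < 10 ^ L) :
    ∑ y ∈ (univ : Finset (ZMod d)).erase 0, G L y ^ m
      ≤ (1 + 10 * (299 / 300 : ℝ) ^ m) ^ L - 1 := by
  set ρ : ℝ := (299 / 300 : ℝ) ^ m with hρ
  have hρ0 : 0 ≤ ρ := by positivity
  have hρ1 : ρ ≤ 1 := pow_le_one₀ (by norm_num) (by norm_num)
  set w : (Fin L → ℤ) → ℝ := fun α => ∏ i, (if α i = 0 then (1 : ℝ) else ρ) with hw
  set Ψ : ZMod d → (Fin L → ℤ) := fun y i => dig (10 ^ (i : ℕ) * y) with hΨ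
  set T : Finset (Fin L → ℤ) := Fintype.piFinset (fun _ => Finset.Icc (-5 : ℤ) 5) with hT
  have hw0 : ∀ α, 0 ≤ w α := by
    intro α
    apply Finset.prod_nonneg
    intro i _
    split_ifs
    · norm_num
    · exact hρ0
  have hinj : Function.Injective Ψ := by
    intro y z hyz
    apply dig_injective L y z hL
    intro i hi
    have := congrFun hyz ⟨i, hi⟩
    exact this
  have hΨ0 : Ψ 0 = 0 := by
    funext i
    simp only [hΨ, mul_zero, Pi.zero_apply]
    apply dig_small
    have := NeZero.pos d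
    simp
    exact_mod_cast this
  have hmem : ∀ y, Ψ y ∈ T := by
    intro y
    rw [hT, Fintype.mem_piFinset]
    intro i
    have := abs_dig_le (10 ^ (i : ℕ) * y)
    rw [Finset.mem_Icc]
    exact abs_le.mp this
  have hle : ∀ y : ZMod d, G L y ^ m ≤ w (Ψ y) := by
    intro y
    unfold G
    rw [← Finset.prod_pow, hw]
    simp only
    rw [← Fin.prod_univ_eq_prod_range (fun i => kap (10 ^ i * y) ^ m) L]
    apply Finset.prod_le_prod
    · intro i _; exact pow_nonneg (kap_nonneg _) m
    · intro i _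
      simp only [hΨ]
      split_ifs with h
      · exact pow_le_one₀ (kap_nonneg _) (kap_le_one _)
      · have : (d : ℤ) ≤ 20 * |(10 ^ (i : ℕ) * y).valMinAbs| := by
          by_contra hc
          push Not at hc
          exact h (dig_small _ hc)
        exact pow_le_pow_left₀ (kap_nonneg _) (kap_le_of_not_small _ this) m
  calc ∑ y ∈ (univ : Finset (ZMod d)).erase 0, G L y ^ m
      ≤ ∑ y ∈ (univ : Finset (ZMod d)).erase 0, w (Ψ y) := Finset.sum_le_sum (fun y _ => hle y)
    _ = ∑ α ∈ ((univ : Finset (ZMod d)).erase 0).image Ψ, w α := by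
        rw [Finset.sum_image (fun a _ b _ h => hinj h)]
    _ ≤ ∑ α ∈ T.erase 0, w α := by
        apply Finset.sum_le_sum_of_subset_of_nonneg
        · intro α hα
          rw [Finset.mem_image] at hα
          obtain ⟨y, hy, rfl⟩ := hα
          rw [Finset.mem_erase]
          refine ⟨?_, hmem y⟩
          intro h
          rw [← hΨ0] at h
          have := hinj h
          rw [Finset.mem_erase] at hy
          exact hy.1 this
        · intro α _ _; exact hw0 α
    _ = (1 + 10 * ρ) ^ L - 1 := by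
        have h0 : (0 : Fin L → ℤ) ∈ T := by rw [← hΨ0]; exact hmem 0
        have h1 : ∑ α ∈ T, w α = (1 + 10 * ρ) ^ L := by
          rw [hT, hw]
          rw [← Finset.prod_univ_sum (fun _ : Fin L => Finset.Icc (-5 : ℤ) 5)
            (fun _ a => if a = 0 then (1 : ℝ) else ρ)]
          simp only [sum_digits]
          simp
        rw [← Finset.add_sum_erase _ _ h0] at h1
        have h2 : w 0 = 1 := by simp [hw]
        linarith

/-- Equidistribution modulo `d`. -/
theorem equidist (k m L : ℕ) (v : ℤ) (hm : 0 < m) (h : m * L ≤ k) (hL : d < 10 ^ L)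
    (hd : Nat.Coprime d 30) :
    |Ad k v d - A k v / d| ≤ A k v / d
      * (m * ((1 + 10 * (299 / 300 : ℝ) ^ m) ^ L - 1)) := by
  refine (abs_Ad_sub_le k v).trans ?_
  have hA := A_nonneg k v
  apply mul_le_mul_of_nonneg_left _ (by positivity)
  have h3 : Nat.Coprime 3 d := (Nat.Coprime.coprime_dvd_right (by norm_num) hd).symm
  have h10 : Nat.Coprime 10 d := (Nat.Coprime.coprime_dvd_right (by norm_num) hd).symm
  calc ∑ x ∈ (univ : Finset (ZMod d)).erase 0, ∏ j ∈ range k, kap (10 ^ j * (3 * x))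
      ≤ ∑ x ∈ (univ : Finset (ZMod d)).erase 0,
          ∑ t ∈ range m, G L (10 ^ (t * L) * (3 * x)) ^ m := by
        apply Finset.sum_le_sum
        intro x _
        refine (prod_le_blocks k m L h (3 * x)).trans ?_
        exact prod_le_sum_pow m hm (fun t => G L (10 ^ (t * L) * (3 * x)))
          (fun t => G_nonneg _ _)
    _ = ∑ t ∈ range m, ∑ x ∈ (univ : Finset (ZMod d)).erase 0,
          G L (10 ^ (t * L) * (3 * x)) ^ m := Finset.sum_comm
    _ = ∑ t ∈ range m, ∑ x ∈ (univ : Finset (ZMod d)).erase 0, G L x ^ m := by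
        apply Finset.sum_congr rfl
        intro t _
        set u : (ZMod d)ˣ := (ZMod.unitOfCoprime 10 h10) ^ (t * L) * ZMod.unitOfCoprime 3 h3
          with hu
        have := sum_erase_unit u (fun y => G L y ^ m)
        rw [← this]
        apply Finset.sum_congr rfl
        intro x _
        congr 2
        rw [hu]
        push_cast
        rw [ZMod.coe_unitOfCoprime, ZMod.coe_unitOfCoprime]
        push_cast
        ring
    _ ≤ ∑ t ∈ range m, ((1 + 10 * (299 / 300 : ℝ) ^ m) ^ L - 1) :=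
        Finset.sum_le_sum (fun t _ => sum_G_pow L m hL)
    _ = _ := by rw [Finset.sum_const, Finset.card_range, nsmul_eq_mul]

end Pool.Agent.W_MP_002644_nt
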